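import Pool.Agent.Zk63.L43.Aver

/-!
# A discrete nested family of cuts for a finitely generated virtually free group

(helper43, after a plan of helper63)
-/

set_option autoImplicit false

namespace Pool.Agent.Zk63.L43.Abs

open scoped ENNReal Topology Pointwise
open Set Filter
open Pool.Agent.Zk63.LR
open Pool.Agent.Zk63.L43.Aver (Good few exists_aver)

section ends

variable {H : Type*} [Group H] {c : H → H → ℝ≥0∞}

/-- the direction `f^n`, `n → ∞` -/
noncomputable def pU (f : H) : Ultrafilter H := Ultrafilter.of (Filter.map (fun n : ℕ => f ^ n) atTop)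

theorem mem_pU {f : H} {X : Set H} {K : ℕ} (h : ∀ n : ℕ, K ≤ n → f ^ n ∈ X) : X ∈ pU f := by
  refine Ultrafilter.of_le (Filter.map (fun n : ℕ => f ^ n) atTop) ?_
  rw [Filter.mem_map, Filter.mem_atTop_sets]
  exact ⟨K, h⟩

theorem eventually_const (hc : ∀ u v, c u v = c v u) (hpos : ∀ u v, c u v ≠ 0)
    (hinv : ∀ (g u v : H), c (g • u) (g • v) = c u v)
    {f : H} (hf : Function.Injective (fun k : ℤ => f ^ k)) {X : Set H} (hX : cap c X ≠ ∞) :
    ∃ K : ℕ, (∀ n : ℕ, K ≤ n → f ^ n ∈ X) ∨ (∀ n : ℕ, K ≤ n → f ^ n ∉ X) := by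
  have hf1 := few hpos hinv hf hX 1 f
  have hf2 := few hpos hinv hf hX f 1
  obtain ⟨M, hM⟩ := (hf1.union hf2).bddAbove
  have key : ∀ n : ℕ, M.toNat + 1 ≤ n → (f ^ n ∈ X ↔ f ^ (n + 1) ∈ X) := by
    intro n hn
    have e1 : f ^ (n : ℤ) * 1 = f ^ n := by simp
    have e2 : f ^ (n : ℤ) * f = f ^ (n + 1) := by rw [zpow_natCast, pow_succ]
    constructor
    · intro h
      by_contra hcon
      have h2 := hM (Or.inl ⟨by rw [e1]; exact h, by rw [e2]; exact hcon⟩ : (n : ℤ) ∈ _)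
      omega
    · intro h
      by_contra hcon
      have h2 := hM (Or.inr ⟨by rw [e2]; exact h, by rw [e1]; exact hcon⟩ : (n : ℤ) ∈ _)
      omega
  refine ⟨M.toNat + 1, ?_⟩
  have hall : ∀ n : ℕ, M.toNat + 1 ≤ n → (f ^ n ∈ X ↔ f ^ (M.toNat + 1) ∈ X) := by
    intro n hn
    induction n, hn using Nat.le_induction with
    | base => rfl
    | succ n hn ih => rw [← key n hn, ih]
  by_cases h : f ^ (M.toNat + 1) ∈ X
  · left; intro n hn; exact (hall n hn).2 h
  · right; intro n hn h2; exact h ((hall n hn).1 h2)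

theorem of_mem_pU (hc : ∀ u v, c u v = c v u) (hpos : ∀ u v, c u v ≠ 0)
    (hinv : ∀ (g u v : H), c (g • u) (g • v) = c u v)
    {f : H} (hf : Function.Injective (fun k : ℤ => f ^ k)) {X : Set H} (hX : cap c X ≠ ∞) (h : X ∈ pU f) :
    ∃ K : ℕ, ∀ n : ℕ, K ≤ n → f ^ n ∈ X := by
  obtain ⟨K, h1 | h1⟩ := eventually_const hc hpos hinv hf hX
  · exact ⟨K, h1⟩
  · exfalso
    have h2 : Xᶜ ∈ pU f := mem_pU (K := K) h1
    exact (Ultrafilter.compl_mem_iff_notMem.1 h2) h

theorem inv_injective {f : H} (hf : Function.Injective (fun k : ℤ => f ^ k)) :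
    Function.Injective (fun k : ℤ => f⁻¹ ^ k) := by
  intro a b h
  simp only [inv_zpow', ← zpow_neg] at h
  have := hf h
  omega

theorem exists_isMin (hc : ∀ u v, c u v = c v u) (hpos : ∀ u v, c u v ≠ 0)
    (hinv : ∀ (g u v : H), c (g • u) (g • v) = c u v)
    {f : H} (hf : Function.Injective (fun k : ℤ => f ^ k)) {X : Set H} (hX : cap c X ≠ ∞)
    {K₁ : ℕ} (h1 : Good f X 1 K₁) :
    ∃ A : Set H, IsMin c (pU f) (pU f⁻¹) A ∧ cap c A ≤ cap c X ∧
      ∀ n : ℕ, 1 ≤ n → f ^ n ∈ A ∧ (f ^ n)⁻¹ ∉ A := by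
  classical
  set 𝓚 : Set (H → Bool) := {φ | (∀ x, φ x = true → φ (f * x) = true) ∧ φ 1 = true ∧ φ f⁻¹ = false} with h𝓚
  have hcl : IsClosed 𝓚 := by
    have e : 𝓚 = (⋂ x, {φ : H → Bool | φ x = true → φ (f * x) = true}) ∩
        ({φ : H → Bool | φ 1 = true} ∩ {φ : H → Bool | φ f⁻¹ = false}) := by
      ext φ
      simp [h𝓚]
    rw [e]
    refine (isClosed_iInter fun x => ?_).inter ((isClosed_coord 1 true).inter (isClosed_coord f⁻¹ false))
    have hcont : Continuous (fun φ : H → Bool => (φ x, φ (f * x))) := by fun_prop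
    exact (isClosed_discrete {b : Bool × Bool | b.1 = true → b.2 = true}).preimage hcont
  have hup : ∀ φ ∈ 𝓚, ∀ n : ℕ, f ^ n ∈ tr φ := by
    rintro φ ⟨h2, h3, -⟩ n
    induction n with
    | zero => simpa [tr] using h3
    | succ n ih =>
      have := h2 (f ^ n) ih
      rw [← pow_succ'] at this
      exact this
  have hdown : ∀ φ ∈ 𝓚, ∀ n : ℕ, 1 ≤ n → (f ^ n)⁻¹ ∉ tr φ := by
    rintro φ ⟨h2, -, h4⟩ n hn
    induction n, hn using Nat.le_induction with
    | base =>
      intro h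
      rw [pow_one] at h
      have h' : φ f⁻¹ = true := h
      rw [h4] at h'
      exact absurd h' (by simp)
    | succ n hn ih =>
      intro h
      apply ih
      have := h2 _ h
      have e : f * (f ^ (n + 1))⁻¹ = (f ^ n)⁻¹ := by rw [pow_succ]; group
      rw [e] at this
      exact this
  -- sets of finite capacity which separate the directions
  have hsep : ∀ Y : Set H, cap c Y ≠ ∞ → ∀ K : ℕ, Good f Y 1 K → ∃ φ ∈ 𝓚, cap c (tr φ) ≤ cap c Y := by
    intro Y hY K hK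
    obtain ⟨A, hA1, hA2, hA3, hA4⟩ := exists_aver hc hpos hinv hf hY hK
    obtain ⟨φ, rfl⟩ := exists_tr A
    refine ⟨φ, ⟨hA1, hA2, ?_⟩, hA4⟩
    have : ¬ (φ f⁻¹ = true) := hA3
    simpa using this
  obtain ⟨φ₀, h0, h0'⟩ := hsep X hX K₁ h1
  obtain ⟨φ, hφ, hmin⟩ := exists_min c hcl ⟨φ₀, h0⟩
  have hcapX : cap c (tr φ) ≤ cap c X := (hmin φ₀ h0).trans h0'
  refine ⟨tr φ, ⟨?_, ?_, ne_top_of_le_ne_top hX hcapX, ?_⟩, hcapX, fun n hn => ⟨hup φ hφ n, hdown φ hφ n hn⟩⟩
  · exact mem_pU (K := 0) fun n _ => hup φ hφ n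
  · intro h
    have h2 : (tr φ)ᶜ ∈ pU f⁻¹ := mem_pU (K := 1) fun n hn => by
      rw [inv_pow]
      exact hdown φ hφ n hn
    exact (Ultrafilter.compl_mem_iff_notMem.1 h2) h
  · intro Y hY1 hY2
    by_cases hYtop : cap c Y = ∞
    · rw [hYtop]; exact le_top
    · obtain ⟨K, hK⟩ := of_mem_pU hc hpos hinv hf hYtop hY1
      have hYc : cap c Yᶜ ≠ ∞ := by rwa [cap_compl hc]
      obtain ⟨K', hK'⟩ := of_mem_pU hc hpos hinv (inv_injective hf) hYc (Ultrafilter.compl_mem_iff_notMem.2 hY2)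
      have hg : Good f Y 1 (max K K') := by
        constructor
        · intro k hk
          obtain ⟨n, rfl⟩ := Int.eq_ofNat_of_zero_le (show 0 ≤ k by omega)
          rw [mul_one, zpow_natCast]
          exact hK n (by omega)
        · intro k hk
          obtain ⟨n, hn⟩ := Int.eq_ofNat_of_zero_le (show 0 ≤ -k by omega)
          have e : f ^ k * 1 = f⁻¹ ^ n := by
            have : k = -(n : ℤ) := by omega
            rw [this, mul_one, zpow_neg, zpow_natCast, inv_pow]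
          rw [e]
          exact hK' n (by omega)
      obtain ⟨ψ, hψ, hψ'⟩ := hsep Y hYtop _ hg
      exact (hmin ψ hψ).trans hψ'

end ends

section family

variable {H : Type*} [Group H] {c : H → H → ℝ≥0∞}

/-- the family of all cuts of capacity at most two which are minimal for some pair of ultrafilters -/
def Fam (c : H → H → ℝ≥0∞) : Set (Set H) :=
  {A | (∃ p q : Ultrafilter H, IsMin c p q A) ∧ cap c A ≤ 2}

theorem fam_smul (hinv : ∀ (g u v : H), c (g • u) (g • v) = c u v) (g : H) {A : Set H} (hA : A ∈ Fam c) :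
    g • A ∈ Fam c := by
  obtain ⟨⟨p, q, h⟩, h2⟩ := hA
  have hmem : ∀ (r : Ultrafilter H) (X : Set H), X ∈ r.map (fun x => g • x) ↔ g⁻¹ • X ∈ r := by
    intro r X
    rw [Ultrafilter.mem_map, Set.preimage_smul]
  refine ⟨⟨p.map (fun x => g • x), q.map (fun x => g • x), ?_, ?_, ?_, ?_⟩, ?_⟩
  · rw [hmem, inv_smul_smul]; exact h.mem
  · rw [hmem, inv_smul_smul]; exact h.notMem
  · rw [cap_smul hinv]; exact h.fin
  · intro X h3 h4
    rw [hmem] at h3 h4
    rw [cap_smul hinv, ← cap_smul hinv g⁻¹ X]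
    exact h.le _ h3 h4
  · rw [cap_smul hinv]; exact h2

theorem fam_compl (hc : ∀ u v, c u v = c v u) {A : Set H} (hA : A ∈ Fam c) : Aᶜ ∈ Fam c := by
  obtain ⟨⟨p, q, h⟩, h2⟩ := hA
  exact ⟨⟨q, p, h.compl hc⟩, by rwa [cap_compl hc]⟩

theorem fam_nonempty {A : Set H} (hA : A ∈ Fam c) : A.Nonempty ∧ Aᶜ.Nonempty := by
  obtain ⟨⟨p, q, h⟩, h2⟩ := hA
  exact ⟨p.nonempty_of_mem h.mem, q.nonempty_of_mem (Ultrafilter.compl_mem_iff_notMem.2 h.notMem)⟩

/-- a set with no boundary edge is trivial -/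
theorem exists_edge {T : Set H} (hT : Subgroup.closure T = ⊤) {D : Set H} (h1 : D.Nonempty) (h2 : Dᶜ.Nonempty) :
    ∃ x, ∃ s ∈ T, (x ∈ D ∧ x * s ∉ D) ∨ (x ∉ D ∧ x * s ∈ D) := by
  by_contra hcon
  push Not at hcon
  have key : ∀ g : H, ∀ x, x ∈ D ↔ x * g ∈ D := by
    intro g
    have hg : g ∈ Subgroup.closure T := by rw [hT]; trivial
    induction hg using Subgroup.closure_induction with
    | mem s hs =>
      intro x
      constructor
      · exact (hcon x s hs).1
      · intro h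
        by_contra h3
        exact (hcon x s hs).2 h3 h
    | one => intro x; rw [mul_one]
    | mul a b _ _ iha ihb =>
      intro x
      rw [← mul_assoc, ← ihb, ← iha]
    | inv a _ iha =>
      intro x
      rw [iha (x * a⁻¹), inv_mul_cancel_right]
  obtain ⟨x, hx⟩ := h1
  obtain ⟨y, hy⟩ := h2
  apply hy
  have := (key (x⁻¹ * y) x).1 hx
  rwa [mul_inv_cancel_left] at this

theorem cap_ge (hc : ∀ u v, c u v = c v u) (hinv : ∀ (g u v : H), c (g • u) (g • v) = c u v)
    {T : Set H} (hT : Subgroup.closure T = ⊤) {D : Set H} (h1 : D.Nonempty) (h2 : Dᶜ.Nonempty) :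
    ∃ s ∈ T, c 1 s ≤ cap c D := by
  obtain ⟨x, s, hs, h | h⟩ := exists_edge hT h1 h2
  · refine ⟨s, hs, ?_⟩
    have h3 := le_cap (c := c) h.1 h.2
    have h4 := hinv x 1 s
    simp only [smul_eq_mul, mul_one] at h4
    rwa [h4] at h3
  · refine ⟨s, hs, ?_⟩
    have h3 := le_cap (c := c) h.2 h.1
    have h4 := hinv x 1 s
    simp only [smul_eq_mul, mul_one] at h4
    rwa [hc, h4] at h3

theorem fam_no_chain (hc : ∀ u v, c u v = c v u) (hpos : ∀ u v, c u v ≠ 0)
    (hinv : ∀ (g u v : H), c (g • u) (g • v) = c u v) {T : Set H} (hT : Subgroup.closure T = ⊤) (hTf : T.Finite)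
    {A : ℕ → Set H} (hA : ∀ i, A i ∈ Fam c)
    (hlt : ∀ i j, i < j → A i ⊂ A j) {x y : H} (hx : ∀ i, x ∈ A i) (hy : ∀ i, y ∉ A i) : False := by
  choose hpq hcap using fun i => hA i
  choose p q hmin using hpq
  have hmono : Monotone A := by
    intro i j hij
    rcases hij.eq_or_lt with rfl | h
    · exact le_refl _
    · exact (hlt i j h).1
  obtain ⟨ε, hε0, hε⟩ : ∃ ε : ℝ≥0∞, ε ≠ 0 ∧ ∀ s ∈ T, ε < c 1 s := by
    have : ∀ T : Set H, T.Finite → ∃ ε : ℝ≥0∞, ε ≠ 0 ∧ ∀ s ∈ T, ε < c 1 s := by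
      intro T hT
      induction T, hT using Set.Finite.induction_on with
      | empty => exact ⟨1, one_ne_zero, by simp⟩
      | insert _ _ ih =>
        rename_i a S _ _
        obtain ⟨ε, h1, h2⟩ := ih
        obtain ⟨δ, h3, h4⟩ := exists_between (pos_iff_ne_zero.2 (hpos 1 a))
        refine ⟨min ε δ, ?_, ?_⟩
        · exact (lt_min (pos_iff_ne_zero.2 h1) h3).ne'
        · intro s hs
          rcases Set.mem_insert_iff.1 hs with rfl | hs
          · exact lt_of_le_of_lt (min_le_right _ _) h4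
          · exact lt_of_le_of_lt (min_le_left _ _) (h2 s hs)
    exact this T hTf
  obtain ⟨N, hN⟩ := limit_cut hc hpos hmono (p := p) (q := q) hmin (by norm_num : (2 : ℝ≥0∞) ≠ ∞) hcap
    (hx 0) hy hε0
  have hD1 : ((⋃ i, A i) \ A N).Nonempty := by
    obtain ⟨z, hz, hz'⟩ := Set.exists_of_ssubset (hlt N (N + 1) (Nat.lt_succ_self N))
    exact ⟨z, Set.mem_iUnion.2 ⟨N + 1, hz⟩, hz'⟩
  have hD2 : (((⋃ i, A i) \ A N)ᶜ).Nonempty := ⟨x, fun h => h.2 (hx N)⟩
  obtain ⟨s, hs, h1⟩ := cap_ge hc hinv hT hD1 hD2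
  exact absurd (lt_of_le_of_lt (h1.trans (hN N le_rfl).2) (hε s hs)) (lt_irrefl _)

theorem fam_nested (hc : ∀ u v, c u v = c v u) (hpos : ∀ u v, c u v ≠ 0) {A B : Set H}
    (hA : A ∈ Fam c) (hB : B ∈ Fam c) : A ⊆ B ∨ B ⊆ A ∨ A ⊆ Bᶜ ∨ Aᶜ ⊆ B := by
  obtain ⟨⟨p, q, h⟩, -⟩ := hA
  obtain ⟨⟨p', q', h'⟩, -⟩ := hB
  exact IsMin.nested hc hpos h h'

theorem fam_disc (hc : ∀ u v, c u v = c v u) (hpos : ∀ u v, c u v ≠ 0)
    (hinv : ∀ (g u v : H), c (g • u) (g • v) = c u v) {T : Set H} (hT : Subgroup.closure T = ⊤) (hTf : T.Finite)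
    (x y : H) : {A | A ∈ Fam c ∧ x ∈ A ∧ y ∉ A}.Finite := by
  by_contra hinf
  set S := {A | A ∈ Fam c ∧ x ∈ A ∧ y ∉ A} with hS
  have hinf' : S.Infinite := hinf
  let f : ℕ → Set H := fun n => (hinf'.natEmbedding S n : Set H)
  have hf : ∀ n, f n ∈ S := fun n => (hinf'.natEmbedding S n).2
  have hinj : Function.Injective f := by
    intro a b hab
    exact (hinf'.natEmbedding S).injective (Subtype.ext hab)
  have hcmp : ∀ A ∈ S, ∀ B ∈ S, A ⊆ B ∨ B ⊆ A := by
    rintro A ⟨hA, hxA, hyA⟩ B ⟨hB, hxB, hyB⟩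
    rcases fam_nested hc hpos hA hB with h | h | h | h
    · exact Or.inl h
    · exact Or.inr h
    · exact absurd hxB (h hxA)
    · exact absurd (h hyA) hyB
  obtain ⟨g, hg⟩ := exists_increasing_or_nonincreasing_subseq (fun A B : Set H => A ⊂ B) f
  rcases hg with hg | hg
  · exact fam_no_chain hc hpos hinv hT hTf (A := fun i => f (g i)) (fun i => (hf _).1)
      (fun i j hij => hg i j hij) (fun i => (hf _).2.1) (fun i => (hf _).2.2)
  · refine fam_no_chain hc hpos hinv hT hTf (A := fun i => (f (g i))ᶜ)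
      (fun i => fam_compl hc (hf _).1) (fun i j hij => ?_) (x := y) (y := x)
      (fun i => (hf _).2.2) (fun i => not_not.2 (hf _).2.1)
    have h1 := hg i j hij
    have hne : f (g i) ≠ f (g j) := fun h => by
      have := g.injective (hinj h)
      omega
    have h2 : f (g j) ⊆ f (g i) := by
      rcases hcmp _ (hf (g i)) _ (hf (g j)) with h | h
      · exact absurd (HasSubset.Subset.ssubset_of_ne h hne) h1
      · exact h
    exact compl_lt_compl_iff_lt.2 (HasSubset.Subset.ssubset_of_ne h2 hne.symm)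

/-- elements of infinite order do not stabilise a cut of finite capacity -/
theorem no_stab (hpos : ∀ u v, c u v ≠ 0) (hinv : ∀ (g u v : H), c (g • u) (g • v) = c u v)
    {A : Set H} (hA : A ∈ Fam c) {g : H} (hg : Function.Injective (fun k : ℤ => g ^ k)) (hgA : g • A = A) :
    False := by
  obtain ⟨⟨x, hx⟩, ⟨y, hy⟩⟩ := fam_nonempty hA
  have hfin : cap c A ≠ ∞ := by
    obtain ⟨⟨p, q, h⟩, -⟩ := hA
    exact h.fin
  have h1 := few hpos hinv hg hfin x y
  have h2 : ∀ k : ℤ, g ^ k • A = A := by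
    intro k
    have : g ∈ MulAction.stabilizer H A := hgA
    exact zpow_mem this k
  have h3 : {k : ℤ | g ^ k * x ∈ A ∧ g ^ k * y ∉ A} = Set.univ := by
    ext k
    simp only [mem_setOf_eq, mem_univ, iff_true]
    constructor
    · rw [← h2 k]
      exact Set.smul_mem_smul_set hx
    · rw [← h2 k]
      intro h4
      exact hy (Set.smul_mem_smul_set_iff.1 h4)
  rw [h3] at h1
  exact Set.infinite_univ h1

end family

section main

universe u

variable {H : Type u} [Group H]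

theorem countable_of_fg [Group.FG H] : Countable H := by
  obtain ⟨α, hα, f, hf⟩ := Group.fg_iff_exists_freeGroup_hom_surjective_finite.1 (inferInstance : Group.FG H)
  exact hf.countable

/-- **The theorem**: the cuts of a finitely generated virtually free group -/
theorem abs_cuts [Group.FG H] (N : Subgroup H) [N.Normal] [N.FiniteIndex] (hN : IsFreeGroup N) :
    ∃ E : Set (Set H), (∀ g : H, ∀ A ∈ E, g • A ∈ E) ∧ Nest E ∧ (∀ A ∈ E, A.Nonempty ∧ Aᶜ.Nonempty) ∧
      (∀ A ∈ E, ∀ g ∈ N, g • A = A → g = 1) ∧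
      (∀ f ∈ N, f ≠ 1 → ∃ A ∈ E, ∃ K : ℕ, ∀ n ≥ K, f ^ n ∈ A ∧ (f ^ n)⁻¹ ∉ A) ∧
      (∃ S : Set (Set H), S.Finite ∧ ∀ A ∈ E, ∃ g : H, ∃ B ∈ S, g • B = A) := by
  classical
  have hcount : Countable H := countable_of_fg
  obtain ⟨T, hT, hTf⟩ := Group.fg_iff.1 (inferInstance : Group.FG H)
  set e : N ≃* FreeGroup (IsFreeGroup.Generators N) := IsFreeGroup.toFreeGroup N with he
  -- elements of infinite order
  have hord : ∀ f ∈ N, f ≠ 1 → Function.Injective (fun k : ℤ => f ^ k) := by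
    intro f hf hf1
    rw [injective_zpow_iff_not_isOfFinOrder, isOfFinOrder_iff_pow_eq_one]
    rintro ⟨n, hn, hn1⟩
    have h1 : (e ⟨f, hf⟩) ^ n = 1 := by
      rw [← map_pow]
      have : (⟨f, hf⟩ : N) ^ n = 1 := Subtype.ext hn1
      rw [this, map_one]
    have h2 : e ⟨f, hf⟩ = 1 := by
      by_contra h3
      exact h3 ((pow_eq_one_iff_left hn.ne').1 h1)
    have h3 : (⟨f, hf⟩ : N) = 1 := e.injective (by rw [h2, map_one])
    exact hf1 (congrArg Subtype.val h3)
  -- the projection to `N`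
  set r : H → H := fun x => Quotient.out (QuotientGroup.mk x : H ⧸ N) with hr
  have hrmk : ∀ x, (QuotientGroup.mk (r x) : H ⧸ N) = QuotientGroup.mk x := fun x => QuotientGroup.out_eq' _
  have hπmem : ∀ x, x * (r x)⁻¹ ∈ N := by
    intro x
    rw [← QuotientGroup.eq_one_iff, QuotientGroup.mk_mul, QuotientGroup.mk_inv, hrmk, mul_inv_cancel]
  set π : H → N := fun x => ⟨x * (r x)⁻¹, hπmem x⟩ with hπ
  have hrn : ∀ (n : N) (x : H), r (n * x) = r x := by
    intro n x
    have : (QuotientGroup.mk ((n : H) * x) : H ⧸ N) = QuotientGroup.mk x := by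
      rw [QuotientGroup.mk_mul, (QuotientGroup.eq_one_iff _).2 n.2, one_mul]
    simp only [hr, this]
  have hπn : ∀ (n : N) (x : H), π (n * x) = n * π x := by
    intro n x
    apply Subtype.ext
    simp only [hπ, hrn, Subgroup.coe_mul, mul_assoc]
  have hπr : ∀ x, (π x : H) * r x = x := by
    intro x
    simp only [hπ, inv_mul_cancel_right]
  have hrfin : (Set.range r).Finite := by
    have : Finite (H ⧸ N) := inferInstance
    refine (Set.finite_range (fun z : H ⧸ N => Quotient.out z)).subset ?_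
    rintro _ ⟨x, rfl⟩
    exact ⟨QuotientGroup.mk x, rfl⟩
  -- the walls
  set hd : H → Option (IsFreeGroup.Generators N × Bool) := fun x => (e (π x)).toWord.head? with hhd
  set W : H → IsFreeGroup.Generators N × Bool → Set H := fun s a => {x | hd (s⁻¹ * x) = some a} with hW
  -- the finite set
  have hZ : ∀ u v : H, {h : H | hd (h * u) ≠ hd (h * v)}.Finite := by
    intro u v
    choose B hB1 hB2 using fun τ : H => Words.exists_finite_head ((e (π (τ * u)))⁻¹ * e (π (τ * v)))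
    have hsub : ∀ h : H, hd (h * u) ≠ hd (h * v) → e (π (h * u)) ∈ B (r h) := by
      intro h hne
      by_contra hcon
      apply hne
      have e1 : ∀ z, π (h * z) = π h * π (r h * z) := by
        intro z
        rw [← hπn, ← mul_assoc, hπr]
      have h2 := hB2 (r h) _ hcon
      have h3 : e (π (h * u)) * ((e (π (r h * u)))⁻¹ * e (π (r h * v))) = e (π (h * v)) := by
        rw [e1 u, e1 v, map_mul, map_mul]
        group
      rw [h3] at h2
      exact h2.symm
    refine Set.Finite.of_finite_image (f := fun h => (r h, e (π (h * u)))) ?_ ?_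
    · refine Set.Finite.subset (Set.Finite.biUnion hrfin (t := fun τ => ({τ} : Set H) ×ˢ B τ)
        fun τ _ => (Set.finite_singleton τ).prod (hB1 τ)) ?_
      rintro _ ⟨h, hh, rfl⟩
      simp only [Set.mem_iUnion]
      exact ⟨r h, ⟨h, rfl⟩, ⟨rfl, hsub h hh⟩⟩
    · intro h _ h' _ heq
      simp only [Prod.mk.injEq] at heq
      obtain ⟨h1, h2⟩ := heq
      have h3 := e.injective h2
      have e1 : ∀ h z, π (h * z) = π h * π (r h * z) := by
        intro h z
        rw [← hπn, ← mul_assoc, hπr]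
      rw [e1 h u, e1 h' u, h1, mul_left_inj] at h3
      rw [← hπr h, ← hπr h', h1, h3]
  obtain ⟨c, hc, hpos, hinv, hcap⟩ := exists_weight (G := H) (V := H) {A | ∃ s a, A = W s a} (by
    rintro ⟨u, v⟩
    refine ⟨(hZ u v).toFinset.card, ?_⟩
    rintro A ⟨s, a, rfl⟩
    rw [← Set.Finite.encard_eq_coe_toFinset_card]
    refine le_trans (Set.encard_le_encard (t := (fun h : H => (s * h * u, s * h * v)) ''
      {h : H | hd (h * u) ≠ hd (h * v)}) ?_) (Set.encard_image_le _ _)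
    rintro ⟨q1, q2⟩ ⟨⟨g, hg⟩, hne⟩
    have hg1 : g * u = q1 := congrArg Prod.fst hg
    have hg2 : g * v = q2 := congrArg Prod.snd hg
    refine ⟨s⁻¹ * g, ?_, ?_⟩
    · intro heq
      apply hne
      show hd (s⁻¹ * q1) = some a ↔ hd (s⁻¹ * q2) = some a
      rw [← hg1, ← hg2, ← mul_assoc, ← mul_assoc, heq]
    · simp only [mul_inv_cancel_left]
      rw [hg1, hg2])
  have hinv' : ∀ (g u v : H), c (g • u) (g • v) = c u v := hinv
  refine ⟨Fam c, fun g A hA => fam_smul hinv' g hA, ⟨fun A hA => fam_compl hc hA,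
    fun A hA B hB => fam_nested hc hpos hA hB, fun x y => fam_disc hc hpos hinv' hT hTf x y⟩,
    fun A hA => fam_nonempty hA, ?_, ?_, ?_⟩
  · intro A hA g hg hgA
    by_contra hg1
    exact no_stab hpos hinv' hA (hord g hg hg1) hgA
  · intro f hf hf1
    have hF : e ⟨f, hf⟩ ≠ 1 := by
      intro h
      apply hf1
      have : (⟨f, hf⟩ : N) = 1 := e.injective (by rw [h, map_one])
      exact congrArg Subtype.val this
    obtain ⟨u, v, a, huv, hK⟩ := Words.pow_head hF
    obtain ⟨K, hK⟩ := hK (u⁻¹ * e (π 1))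
    have hpow : ∀ n : ℕ, (e ⟨f, hf⟩) ^ n = u * v ^ n * u⁻¹ := by
      intro n
      rw [huv, conj_pow]
    have h1 : ∀ n : ℕ, hd (((e.symm u : N) : H)⁻¹ * f ^ n) = (v ^ n * (u⁻¹ * e (π 1))).toWord.head? := by
      intro n
      have e1 : ((e.symm u : N) : H)⁻¹ * f ^ n = (((e.symm u)⁻¹ * (⟨f, hf⟩ : N) ^ n : N) : H) * 1 := by
        simp
      simp only [hhd]
      rw [e1, hπn, map_mul, map_mul, map_inv, map_pow, hpow, MulEquiv.apply_symm_apply]
      congr 2
      group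
    have h2 : ∀ n : ℕ, hd (((e.symm u : N) : H)⁻¹ * (f ^ n)⁻¹) = ((v ^ n)⁻¹ * (u⁻¹ * e (π 1))).toWord.head? := by
      intro n
      have e1 : ((e.symm u : N) : H)⁻¹ * (f ^ n)⁻¹ = (((e.symm u)⁻¹ * ((⟨f, hf⟩ : N) ^ n)⁻¹ : N) : H) * 1 := by
        simp
      simp only [hhd]
      rw [e1, hπn, map_mul, map_mul, map_inv, map_inv, map_pow, hpow, MulEquiv.apply_symm_apply]
      congr 2
      group
    have hg : Good f (W ((e.symm u : N) : H) a) 1 K := by
      constructor
      · intro k hk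
        obtain ⟨n, rfl⟩ := Int.eq_ofNat_of_zero_le (show 0 ≤ k by omega)
        rw [mul_one, zpow_natCast]
        show hd _ = some a
        rw [h1]
        exact (hK n (by omega)).1
      · intro k hk
        obtain ⟨n, hn⟩ := Int.eq_ofNat_of_zero_le (show 0 ≤ -k by omega)
        have e1 : f ^ k * 1 = (f ^ n)⁻¹ := by
          have : k = -(n : ℤ) := by omega
          rw [this, mul_one, zpow_neg, zpow_natCast]
        rw [e1]
        show ¬ (hd _ = some a)
        rw [h2]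
        exact (hK n (by omega)).2
    have hcapW : cap c (W ((e.symm u : N) : H) a) ≤ 2 := hcap _ ⟨_, _, rfl⟩
    obtain ⟨A, hA1, hA2, hA3⟩ := exists_isMin hc hpos hinv' (hord f hf hf1)
      (ne_top_of_le_ne_top (by norm_num) hcapW) hg
    exact ⟨A, ⟨⟨_, _, hA1⟩, hA2.trans hcapW⟩, 1, fun n hn => hA3 n hn⟩
  · refine ⟨⋃ s ∈ T, ({A | A ∈ Fam c ∧ 1 ∈ A ∧ s ∉ A} ∪ {A | A ∈ Fam c ∧ s ∈ A ∧ 1 ∉ A}),
      Set.Finite.biUnion hTf fun s _ => (fam_disc hc hpos hinv' hT hTf 1 s).union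
        (fam_disc hc hpos hinv' hT hTf s 1), ?_⟩
    intro A hA
    obtain ⟨hA1, hA2⟩ := fam_nonempty hA
    obtain ⟨x, s, hs, h⟩ := exists_edge hT hA1 hA2
    have hmem : ∀ z, z ∈ x⁻¹ • A ↔ x * z ∈ A := by
      intro z
      rw [Set.mem_inv_smul_set_iff, smul_eq_mul]
    refine ⟨x, x⁻¹ • A, ?_, smul_inv_smul _ _⟩
    simp only [Set.mem_iUnion]
    refine ⟨s, hs, ?_⟩
    rcases h with h | h
    · left
      refine ⟨fam_smul hinv' _ hA, ?_, ?_⟩
      · rw [hmem, mul_one]; exact h.1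
      · rw [hmem]; exact h.2
    · right
      refine ⟨fam_smul hinv' _ hA, ?_, ?_⟩
      · rw [hmem]; exact h.2
      · rw [hmem, mul_one]; exact h.1

end main

end Pool.Agent.Zk63.L43.Abs
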