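import Pool.Agent.Zk63.L43.Words
import Pool.Agent.Zk63.LR.Weight
import Pool.Agent.Zk63.LR.Path

/-!
# Averaging a cut along the powers of an element

(helper43, after a plan of helper63)
-/

set_option autoImplicit false

namespace Pool.Agent.Zk63.L43.Aver

open scoped ENNReal Topology Pointwise
open Set Filter
open Pool.Agent.Zk63.LR

variable {H : Type*} [Group H] {c : H → H → ℝ≥0∞}

/-- few changes along the powers of `f` -/
theorem few (hpos : ∀ u v, c u v ≠ 0) (hinv : ∀ (g u v : H), c (g • u) (g • v) = c u v)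
    {f : H} (hf : Function.Injective (fun k : ℤ => f ^ k)) {X : Set H} (hX : cap c X ≠ ∞) (x y : H) :
    {k : ℤ | f ^ k * x ∈ X ∧ f ^ k * y ∉ X}.Finite := by
  have h := finite_cut (G := H) hpos hinv hX (x, y)
  have h2 : Set.InjOn (fun k : ℤ => (f ^ k • x, f ^ k • y)) {k : ℤ | f ^ k * x ∈ X ∧ f ^ k * y ∉ X} := by
    intro k _ l _ e
    simp only [Prod.mk.injEq, smul_eq_mul, mul_left_inj] at e
    exact hf e.1
  refine Set.Finite.of_finite_image (h.subset ?_) h2
  rintro _ ⟨k, ⟨h3, h4⟩, rfl⟩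
  exact ⟨⟨f ^ k, rfl⟩, h3, h4⟩

/-- `f^k x` is in `X` for `k ≥ K` and not in `X` for `k ≤ -K` -/
def Good (f : H) (X : Set H) (x : H) (K : ℕ) : Prop :=
  (∀ k : ℤ, (K : ℤ) ≤ k → f ^ k * x ∈ X) ∧ ∀ k : ℤ, k ≤ -(K : ℤ) → f ^ k * x ∉ X

theorem Good.mono {f : H} {X : Set H} {x : H} {K K' : ℕ} (h : Good f X x K) (hK : K ≤ K') : Good f X x K' := by
  constructor
  · intro k hk; exact h.1 k (by omega)
  · intro k hk; exact h.2 k (by omega)

theorem exists_good (hc : ∀ u v, c u v = c v u) (hpos : ∀ u v, c u v ≠ 0)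
    (hinv : ∀ (g u v : H), c (g • u) (g • v) = c u v)
    {f : H} (hf : Function.Injective (fun k : ℤ => f ^ k)) {X : Set H} (hX : cap c X ≠ ∞)
    {K₁ : ℕ} (h1 : Good f X 1 K₁) (x : H) : ∃ K, Good f X x K := by
  have hf1 := few hpos hinv hf hX 1 x
  have hf2 := few hpos hinv hf hX x 1
  obtain ⟨M, hM⟩ := (hf1.union hf2).bddAbove
  obtain ⟨m, hm⟩ := (hf1.union hf2).bddBelow
  refine ⟨K₁ + M.toNat + m.natAbs + 1, ?_, ?_⟩
  · intro k hk
    by_contra hcon
    have h2 : k ∈ ({k : ℤ | f ^ k * 1 ∈ X ∧ f ^ k * x ∉ X} ∪ {k : ℤ | f ^ k * x ∈ X ∧ f ^ k * 1 ∉ X} : Set ℤ) :=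
      Or.inl ⟨h1.1 k (by omega), hcon⟩
    have h3 := hM h2
    omega
  · intro k hk hcon
    have h2 : k ∈ ({k : ℤ | f ^ k * 1 ∈ X ∧ f ^ k * x ∉ X} ∪ {k : ℤ | f ^ k * x ∈ X ∧ f ^ k * 1 ∉ X} : Set ℤ) :=
      Or.inr ⟨hcon, h1.2 k (by omega)⟩
    have h3 := hm h2
    omega

open Classical in
/-- the number of `k` in `[-K, K)` with `f^k x ∈ X` -/
noncomputable def cnt (f : H) (X : Set H) (x : H) (K : ℕ) : ℕ :=
  ((Finset.Ico (-(K : ℤ)) K).filter (fun k => f ^ k * x ∈ X)).card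

theorem cnt_succ {f : H} {X : Set H} {x : H} {K : ℕ} (h : Good f X x K) :
    cnt f X x (K + 1) = cnt f X x K + 1 := by
  classical
  unfold cnt
  have e : (Finset.Ico (-((K + 1 : ℕ) : ℤ)) ((K + 1 : ℕ) : ℤ)).filter (fun k => f ^ k * x ∈ X) =
      insert (K : ℤ) ((Finset.Ico (-(K : ℤ)) K).filter (fun k => f ^ k * x ∈ X)) := by
    ext k
    simp only [Finset.mem_filter, Finset.mem_Ico, Finset.mem_insert]
    constructor
    · rintro ⟨⟨h1, h2⟩, h3⟩
      by_cases hk : k = K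
      · exact Or.inl hk
      · by_cases hk2 : k ≤ -(K : ℤ)
        · exact absurd h3 (h.2 k hk2)
        · right
          push_cast at h1 h2
          exact ⟨⟨by omega, by omega⟩, h3⟩
    · rintro (h1 | ⟨⟨h1, h2⟩, h3⟩)
      · subst h1
        push_cast
        exact ⟨⟨by omega, by omega⟩, h.1 _ le_rfl⟩
      · push_cast
        exact ⟨⟨by omega, by omega⟩, h3⟩
  rw [e, Finset.card_insert_of_notMem]
  simp

theorem cnt_good {f : H} {X : Set H} {x : H} {K : ℕ} (h : Good f X x K) (K' : ℕ) (hK : K ≤ K') :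
    (cnt f X x K' : ℤ) - K' = cnt f X x K - K := by
  induction K' with
  | zero =>
    have : K = 0 := by omega
    subst this
    rfl
  | succ n ih =>
    rcases Nat.lt_or_ge n K with h1 | h1
    · have : K = n + 1 := by omega
      subst this
      rfl
    · rw [cnt_succ (h.mono h1)]
      have := ih h1
      push_cast
      linarith

theorem cnt_shift {f : H} {X : Set H} {x : H} {K : ℕ} (h : Good f X x K) :
    cnt f X (f * x) K = cnt f X x K + 1 := by
  classical
  unfold cnt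
  have e : ((Finset.Ico (-(K : ℤ)) K).filter (fun k => f ^ k * (f * x) ∈ X)).map
      ⟨fun k => k + 1, add_left_injective 1⟩ =
      insert (K : ℤ) ((Finset.Ico (-(K : ℤ)) K).filter (fun k => f ^ k * x ∈ X)) := by
    ext j
    simp only [Finset.mem_map, Finset.mem_filter, Finset.mem_Ico, Function.Embedding.coeFn_mk, Finset.mem_insert]
    have e1 : ∀ k : ℤ, f ^ k * (f * x) = f ^ (k + 1) * x := by
      intro k
      rw [zpow_add_one, mul_assoc]
    constructor
    · rintro ⟨k, ⟨⟨h1, h2⟩, h3⟩, rfl⟩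
      rw [e1] at h3
      by_cases hk : k + 1 = K
      · exact Or.inl hk
      · exact Or.inr ⟨⟨by omega, by omega⟩, h3⟩
    · rintro (h1 | ⟨⟨h1, h2⟩, h3⟩)
      · subst h1
        by_cases hK : K = 0
        · subst hK
          exfalso
          have h4 := h.1 0 (by simp)
          have h5 := h.2 0 (by simp)
          exact h5 h4
        · refine ⟨(K : ℤ) - 1, ⟨⟨by omega, by omega⟩, ?_⟩, by ring⟩
          rw [e1]
          have := h.1 K le_rfl
          simpa using this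
      · have h6 : j ≠ -(K : ℤ) := by
          rintro rfl
          exact h.2 _ le_rfl h3
        refine ⟨j - 1, ⟨⟨by omega, by omega⟩, ?_⟩, by ring⟩
        rw [e1]
        simpa using h3
  have h2 := congrArg Finset.card e
  rw [Finset.card_map, Finset.card_insert_of_notMem (by simp)] at h2
  exact h2

theorem Good.shift {f : H} {X : Set H} {x : H} {K : ℕ} (h : Good f X x K) : Good f X (f * x) (K + 1) := by
  have e1 : ∀ k : ℤ, f ^ k * (f * x) = f ^ (k + 1) * x := by
    intro k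
    rw [zpow_add_one, mul_assoc]
  constructor
  · intro k hk
    rw [e1]
    push_cast at hk
    exact h.1 _ (by omega)
  · intro k hk
    rw [e1]
    push_cast at hk
    exact h.2 _ (by omega)

/-- the height function -/
theorem exists_height {f : H} {X : Set H} (hg : ∀ x, ∃ K, Good f X x K) :
    ∃ N : H → ℤ, (∀ x K, Good f X x K → N x = cnt f X x K - K) ∧ ∀ x, N (f * x) = N x + 1 := by
  choose K hK using hg
  have h1 : ∀ x K', Good f X x K' → (cnt f X x (K x) : ℤ) - K x = cnt f X x K' - K' := by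
    intro x K' h
    rw [← cnt_good (hK x) (max (K x) K') (le_max_left _ _), ← cnt_good h (max (K x) K') (le_max_right _ _)]
  refine ⟨fun x => cnt f X x (K x) - K x, h1, fun x => ?_⟩
  have h2 := h1 (f * x) (K x + 1) (hK x).shift
  have h3 := h1 x (K x + 1) ((hK x).mono (Nat.le_succ _))
  show (cnt f X (f * x) (K (f * x)) : ℤ) - K (f * x) = ((cnt f X x (K x) : ℤ) - K x) + 1
  rw [h2, h3, cnt_shift ((hK x).mono (Nat.le_succ _))]
  push_cast
  ring

theorem height_zpow {f : H} {N : H → ℤ} (hN : ∀ x, N (f * x) = N x + 1) (k : ℤ) (x : H) :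
    N (f ^ k * x) = N x + k := by
  have hneg : ∀ x, N (f⁻¹ * x) = N x - 1 := by
    intro x
    have := hN (f⁻¹ * x)
    rw [mul_inv_cancel_left] at this
    linarith
  induction k with
  | zero => simp
  | succ n ih =>
    rw [zpow_add_one, ((Commute.refl f).zpow_left _).eq, mul_assoc, hN, ih]
    push_cast; ring
  | pred n ih =>
    rw [zpow_sub_one, ((Commute.refl f).inv_right.zpow_left _).eq, mul_assoc, hneg, ih]
    push_cast; ring

theorem height_diff {f : H} {X : Set H} {N : H → ℤ} (hN : ∀ x K, Good f X x K → N x = cnt f X x K - K)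
    (hg : ∀ x, ∃ K, Good f X x K) (x y : H) :
    ∃ T : Finset ℤ, (∀ k ∈ T, f ^ k * x ∈ X ∧ f ^ k * y ∉ X) ∧ N x - N y ≤ T.card := by
  classical
  obtain ⟨K₁, h1⟩ := hg x
  obtain ⟨K₂, h2⟩ := hg y
  have h1' := h1.mono (le_max_left K₁ K₂)
  have h2' := h2.mono (le_max_right K₁ K₂)
  set K := max K₁ K₂
  refine ⟨(Finset.Ico (-(K : ℤ)) K).filter (fun k => f ^ k * x ∈ X ∧ f ^ k * y ∉ X), ?_, ?_⟩
  · intro k hk
    exact (Finset.mem_filter.1 hk).2
  · rw [hN x K h1', hN y K h2']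
    have h3 : cnt f X x K ≤ cnt f X y K +
        ((Finset.Ico (-(K : ℤ)) K).filter (fun k => f ^ k * x ∈ X ∧ f ^ k * y ∉ X)).card := by
      unfold cnt
      rw [← Finset.card_union_add_card_inter]
      refine le_trans (Finset.card_le_card ?_) (Nat.le_add_right _ _)
      intro k hk
      rw [Finset.mem_filter] at hk
      rw [Finset.mem_union, Finset.mem_filter, Finset.mem_filter]
      by_cases h : f ^ k * y ∈ X
      · exact Or.inl ⟨hk.1, h⟩
      · exact Or.inr ⟨hk.1, hk.2, h⟩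
    push_cast [← Nat.cast_le (α := ℤ)] at h3
    linarith

open Classical in
/-- the number of `k` with `f^k x ∈ B`, `f^k y ∉ B` -/
noncomputable def num (f : H) (B : Set H) (p : H × H) : ℝ≥0∞ :=
  ∑' k : ℤ, if f ^ k * p.1 ∈ B ∧ f ^ k * p.2 ∉ B then (1 : ℝ≥0∞) else 0

/-- a fundamental domain -/
theorem exists_dom {f : H} (hf : Function.Injective (fun k : ℤ => f ^ k)) :
    ∃ w : H → ℝ≥0∞, ∀ x, ∑' k : ℤ, w (f ^ (-k) * x) = 1 := by
  classical
  set out : H → H := fun x =>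
    Quotient.out (Quotient.mk (MulAction.orbitRel (Subgroup.zpowers f) H) x) with hout
  have h1 : ∀ x, ∃ k : ℤ, f ^ (-k) * x = out x := by
    intro x
    have h2 : (MulAction.orbitRel (Subgroup.zpowers f) H).r (out x) x := Quotient.exact (Quotient.out_eq _)
    obtain ⟨⟨_, k, rfl⟩, hk⟩ := h2
    refine ⟨-k, ?_⟩
    rw [neg_neg]
    exact hk
  have h2 : ∀ (k : ℤ) (x : H), out (f ^ k * x) = out x := by
    intro k x
    have : (Quotient.mk (MulAction.orbitRel (Subgroup.zpowers f) H) (f ^ k * x)) =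
        Quotient.mk (MulAction.orbitRel (Subgroup.zpowers f) H) x := by
      apply Quotient.sound
      exact ⟨⟨f ^ k, k, rfl⟩, rfl⟩
    simp only [hout, this]
  refine ⟨fun x => if out x = x then 1 else 0, fun x => ?_⟩
  obtain ⟨k, hk⟩ := h1 x
  rw [tsum_eq_single k]
  · show (if out (f ^ (-k) * x) = f ^ (-k) * x then (1 : ℝ≥0∞) else 0) = 1
    rw [if_pos]
    rw [h2, hk]
  · intro l hl
    show (if out (f ^ (-l) * x) = f ^ (-l) * x then (1 : ℝ≥0∞) else 0) = 0
    rw [if_neg]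
    intro e
    rw [h2] at e
    apply hl
    have : f ^ (-l) * x = f ^ (-k) * x := by rw [← e, hk]
    have := hf (mul_right_cancel this)
    omega

theorem cap_eq (hinv : ∀ (g u v : H), c (g • u) (g • v) = c u v) {f : H} {w : H → ℝ≥0∞}
    (hw : ∀ x, ∑' k : ℤ, w (f ^ (-k) * x) = 1) (B : Set H) :
    cap c B = ∑' p : H × H, w p.1 * c p.1 p.2 * num f B p := by
  classical
  have e0 : cap c B = ∑' p : H × H, (if p.1 ∈ B ∧ p.2 ∉ B then c p.1 p.2 else 0) := by
    unfold cap I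
    refine tsum_congr fun p => ?_
    by_cases h : p.1 ∈ B ∧ p.2 ∉ B
    · rw [if_pos h, Set.indicator_of_mem (show p ∈ B ×ˢ Bᶜ from ⟨h.1, h.2⟩)]
    · rw [if_neg h, Set.indicator_of_notMem (by intro h'; exact h ⟨h'.1, h'.2⟩)]
  rw [e0]
  have e1 : ∀ p : H × H, (if p.1 ∈ B ∧ p.2 ∉ B then c p.1 p.2 else 0) =
      ∑' k : ℤ, w (f ^ (-k) * p.1) * (if p.1 ∈ B ∧ p.2 ∉ B then c p.1 p.2 else 0) := by
    intro p
    rw [ENNReal.tsum_mul_right, hw, one_mul]
  rw [tsum_congr e1, ENNReal.tsum_comm]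
  have e2 : ∀ k : ℤ, ∑' p : H × H, w (f ^ (-k) * p.1) * (if p.1 ∈ B ∧ p.2 ∉ B then c p.1 p.2 else 0) =
      ∑' p : H × H, w p.1 * c p.1 p.2 * (if f ^ k * p.1 ∈ B ∧ f ^ k * p.2 ∉ B then (1 : ℝ≥0∞) else 0) := by
    intro k
    rw [← ((Equiv.mulLeft (f ^ k)).prodCongr (Equiv.mulLeft (f ^ k))).tsum_eq]
    refine tsum_congr fun p => ?_
    have e3 : ((Equiv.mulLeft (f ^ k)).prodCongr (Equiv.mulLeft (f ^ k))) p = (f ^ k * p.1, f ^ k * p.2) := rfl
    rw [e3]
    simp only
    have e4 : f ^ (-k) * (f ^ k * p.1) = p.1 := by rw [← mul_assoc, ← zpow_add]; simp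
    have e5 : c (f ^ k * p.1) (f ^ k * p.2) = c p.1 p.2 := hinv (f ^ k) p.1 p.2
    rw [e4, e5]
    split_ifs
    · rw [mul_one]
    · rw [mul_zero, mul_zero]
  rw [tsum_congr e2, ENNReal.tsum_comm]
  refine tsum_congr fun p => ?_
  rw [ENNReal.tsum_mul_left]
  rfl

/-- **LEMMA M**: averaging does not increase the capacity -/
theorem exists_aver (hc : ∀ u v, c u v = c v u) (hpos : ∀ u v, c u v ≠ 0)
    (hinv : ∀ (g u v : H), c (g • u) (g • v) = c u v)
    {f : H} (hf : Function.Injective (fun k : ℤ => f ^ k)) {X : Set H} (hX : cap c X ≠ ∞)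
    {K₁ : ℕ} (h1 : Good f X 1 K₁) :
    ∃ A : Set H, (∀ x ∈ A, f * x ∈ A) ∧ 1 ∈ A ∧ f⁻¹ ∉ A ∧ cap c A ≤ cap c X := by
  classical
  have hg := exists_good hc hpos hinv hf hX h1
  obtain ⟨N, hN1, hN2⟩ := exists_height hg
  refine ⟨{x | N 1 ≤ N x}, ?_, le_refl (N 1), ?_, ?_⟩
  · intro x hx
    show N 1 ≤ N (f * x)
    rw [hN2]
    have : N 1 ≤ N x := hx
    linarith
  · show ¬ (N 1 ≤ N f⁻¹)
    have := hN2 f⁻¹
    rw [mul_inv_cancel] at this
    linarith
  · obtain ⟨w, hw⟩ := exists_dom hf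
    rw [cap_eq hinv hw, cap_eq hinv hw]
    refine ENNReal.tsum_le_tsum fun p => ?_
    refine mul_le_mul_right ?_ _
    obtain ⟨T, hT1, hT2⟩ := height_diff hN1 hg p.1 p.2
    have h2 : num f {x | N 1 ≤ N x} p ≤ T.card := by
      unfold num
      have e : ∀ k : ℤ, (f ^ k * p.1 ∈ {x | N 1 ≤ N x} ∧ f ^ k * p.2 ∉ {x | N 1 ≤ N x}) ↔
          k ∈ Finset.Ico (N 1 - N p.1) (N 1 - N p.2) := by
        intro k
        simp only [Set.mem_setOf_eq, height_zpow hN2, Finset.mem_Ico, not_le]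
        constructor
        · rintro ⟨h1, h2⟩; constructor <;> linarith
        · rintro ⟨h1, h2⟩; constructor <;> linarith
      simp only [e]
      rw [tsum_eq_sum (s := Finset.Ico (N 1 - N p.1) (N 1 - N p.2))]
      · rw [Finset.sum_ite_mem, Finset.inter_self, Finset.sum_const, nsmul_eq_mul, mul_one, Int.card_Ico]
        have : (N 1 - N p.2 - (N 1 - N p.1)).toNat ≤ T.card := by
          omega
        exact_mod_cast this
      · intro k hk
        rw [if_neg hk]
    have h3 : (T.card : ℝ≥0∞) ≤ num f X p := by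
      unfold num
      calc (T.card : ℝ≥0∞) = ∑ k ∈ T, (if f ^ k * p.1 ∈ X ∧ f ^ k * p.2 ∉ X then (1 : ℝ≥0∞) else 0) := by
            rw [Finset.sum_congr rfl (fun k hk => if_pos (hT1 k hk))]
            simp
        _ ≤ _ := ENNReal.sum_le_tsum T
    exact h2.trans h3

end Pool.Agent.Zk63.L43.Aver
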