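import Mathlib
import Pool.Agent.Zk63.LR.Red

/-!
# Finite groups have trivial first cohomology in free groups on which they permute the generators

(helper43)
-/

set_option autoImplicit false

namespace Pool.Agent.Zk63.L43.Fix

open FreeGroup hiding map_one map_mul map_inv IsReduced norm norm_one norm_eq_zero

section words

variable {L : Type*}

/-- the letter -/
def lt (a : L × Bool) : FreeGroup L := FreeGroup.mk [a]

variable [DecidableEq L]

theorem head_none {x : FreeGroup L} (h : x.toWord.head? = none) : x = 1 := by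
  rw [List.head?_eq_none_iff] at h
  exact toWord_eq_nil_iff.1 h

theorem exists_head {x : FreeGroup L} (h : x ≠ 1) : ∃ a t, x.toWord = a :: t := by
  rcases hx : x.toWord with _ | ⟨a, t⟩
  · exact absurd (toWord_eq_nil_iff.1 hx) h
  · exact ⟨a, t, rfl⟩

theorem eq_lt_mul {x : FreeGroup L} {a : L × Bool} {t : List (L × Bool)} (h : x.toWord = a :: t) :
    x = lt a * FreeGroup.mk t ∧ (FreeGroup.mk t).toWord = t := by
  have h1 : FreeGroup.IsReduced x.toWord := isReduced_toWord
  rw [h] at h1
  have h2 : FreeGroup.IsReduced t := Pool.Agent.Zk63.LR.red_sub h1 ⟨[a], [], by simp⟩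
  refine ⟨?_, by rw [toWord_mk, h2.reduce_eq]⟩
  have h3 : x = FreeGroup.mk x.toWord := mk_toWord.symm
  rw [h] at h3
  rw [h3, lt, FreeGroup.mul_mk]
  rfl

theorem norm_lt_inv_mul {x : FreeGroup L} {a : L × Bool} (h : x.toWord.head? = some a) :
    FreeGroup.norm ((lt a)⁻¹ * x) + 1 = FreeGroup.norm x := by
  rcases hx : x.toWord with _ | ⟨b, t⟩
  · rw [hx] at h; simp at h
  · rw [hx] at h
    have hab : b = a := by simpa using h
    subst hab
    obtain ⟨h1, h2⟩ := eq_lt_mul hx
    have h3 : (lt b)⁻¹ * x = FreeGroup.mk t := by rw [h1]; group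
    rw [h3, FreeGroup.norm, FreeGroup.norm, h2, hx]
    simp

theorem invRev_cons (a : L × Bool) (t : List (L × Bool)) :
    invRev (a :: t) = invRev t ++ [(a.1, !a.2)] := by
  simp [invRev]

theorem head_inv {x : FreeGroup L} {a : L × Bool} {t : List (L × Bool)} (h : x.toWord = a :: t) (ht : t ≠ []) :
    ((lt a)⁻¹ * x)⁻¹.toWord.head? = x⁻¹.toWord.head? := by
  obtain ⟨h1, h2⟩ := eq_lt_mul h
  have h3 : (lt a)⁻¹ * x = FreeGroup.mk t := by rw [h1]; group
  rw [h3, toWord_inv, toWord_inv, h2, h, invRev_cons]
  have h4 : invRev t ≠ [] := by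
    intro h5
    apply ht
    have : (invRev t).length = t.length := invRev_length
    rw [h5] at this
    exact List.length_eq_zero_iff.1 this.symm
  rw [List.head?_append_of_ne_nil _ h4]

theorem norm_inv_mul {x y : FreeGroup L} (hx : x ≠ 1) (hy : y ≠ 1) (h : x.toWord.head? ≠ y.toWord.head?) :
    FreeGroup.norm (x⁻¹ * y) = FreeGroup.norm x + FreeGroup.norm y := by
  obtain ⟨a, t, ha⟩ := exists_head hx
  obtain ⟨b, s, hb⟩ := exists_head hy
  have hab : a ≠ b := by
    rintro rfl
    apply h
    rw [ha, hb]
    rfl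
  have hred : FreeGroup.IsReduced (invRev t ++ [(a.1, !a.2)] ++ (b :: s)) := by
    refine FreeGroup.IsReduced.append_overlap ?_ ?_ (by simp)
    · have : FreeGroup.IsReduced x⁻¹.toWord := isReduced_toWord
      rw [toWord_inv, ha, invRev_cons] at this
      exact this
    · have h1 : FreeGroup.IsReduced y.toWord := isReduced_toWord
      rw [hb] at h1
      show List.IsChain _ ((a.1, !a.2) :: b :: s)
      rw [List.isChain_cons_cons]
      refine ⟨?_, h1⟩
      intro h2
      by_contra h3
      apply hab
      refine Prod.ext h2 ?_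
      simp only at h3
      cases h4 : a.2 <;> cases h5 : b.2 <;> simp_all
  rw [FreeGroup.norm, toWord_mul, toWord_inv, ha, hb, invRev_cons, hred.reduce_eq, FreeGroup.norm, FreeGroup.norm, ha, hb]
  simp only [List.length_append, List.length_cons, List.length_nil]
  have : (invRev t).length = t.length := invRev_length
  rw [this]

end words

section act

variable {L Q : Type*} [Group Q] [MulAction Q L]

/-- the action on the free group -/
def qm (q : Q) : FreeGroup L →* FreeGroup L := FreeGroup.map (fun l => q • l)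

theorem qm_lt (q : Q) (a : L × Bool) : qm q (lt a) = lt (q • a.1, a.2) := by
  simp [qm, lt, FreeGroup.map.mk]

theorem qm_mul (q r : Q) (x : FreeGroup L) : qm (q * r) x = qm q (qm r x) := by
  simp only [qm]
  rw [FreeGroup.map.comp]
  congr 2
  funext l
  simp [mul_smul]

theorem qm_one (x : FreeGroup L) : qm (1 : Q) x = x := by
  have : (fun l : L => (1 : Q) • l) = id := by
    funext l
    simp
  simp only [qm]
  rw [this, FreeGroup.map.id]

theorem toWord_qm [DecidableEq L] (q : Q) (x : FreeGroup L) :
    (qm q x).toWord = x.toWord.map (fun a => (q • a.1, a.2)) := by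
  have h1 : FreeGroup.IsReduced (x.toWord.map (fun a => (q • a.1, a.2))) := by
    have h2 : FreeGroup.IsReduced x.toWord := isReduced_toWord
    unfold FreeGroup.IsReduced at h2 ⊢
    rw [List.isChain_map]
    refine h2.imp ?_
    intro a b h3 h4
    exact h3 (MulAction.injective q h4)
  have h2 : qm q x = FreeGroup.mk (x.toWord.map (fun a => (q • a.1, a.2))) := by
    conv_lhs => rw [← mk_toWord (x := x)]
    simp [qm, FreeGroup.map.mk]
  rw [h2, toWord_mk, h1.reduce_eq]

theorem norm_qm [DecidableEq L] (q : Q) (x : FreeGroup L) : FreeGroup.norm (qm q x) = FreeGroup.norm x := by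
  rw [FreeGroup.norm, toWord_qm, List.length_map, FreeGroup.norm]

theorem head_qm [DecidableEq L] (q : Q) (x : FreeGroup L) :
    (qm q x).toWord.head? = x.toWord.head?.map (fun a => (q • a.1, a.2)) := by
  rw [toWord_qm, List.head?_map]

end act

section main

variable {G Q L : Type*} [Group G] [Group Q] [MulAction Q L]

theorem step [DecidableEq L] (pi : G →* Q) (D : Subgroup G) (n : ℕ) : ∀ (dl : G → FreeGroup L),
    (∀ g ∈ D, ∀ h ∈ D, dl (g * h) = dl g * qm (pi g) (dl h)) → (∀ g ∈ D, FreeGroup.norm (dl g) ≤ n) →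
    ∃ r, ∀ g ∈ D, dl g * qm (pi g) r = r := by
  induction n with
  | zero =>
    intro dl _ hn
    refine ⟨1, fun g hg => ?_⟩
    have h1 : dl g = 1 := FreeGroup.norm_eq_zero.1 (Nat.le_zero.1 (hn g hg))
    rw [h1, map_one, mul_one]
  | succ n ih =>
    intro dl h hn
    by_cases hall : ∀ g ∈ D, FreeGroup.norm (dl g) ≤ n
    · exact ih dl h hall
    push Not at hall
    obtain ⟨c, hc, hcn⟩ := hall
    have hcn' : FreeGroup.norm (dl c) = n + 1 := le_antisymm (hn c hc) hcn
    have hc1 : dl c ≠ 1 := by
      intro e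
      rw [e, FreeGroup.norm_one] at hcn'
      omega
    obtain ⟨a, t, hat⟩ := exists_head hc1
    have hdl1 : dl 1 = 1 := by
      have h1 := h 1 D.one_mem 1 D.one_mem
      rw [mul_one, map_one, qm_one] at h1
      exact mul_eq_left.1 h1.symm
    have hinv : ∀ g ∈ D, dl g⁻¹ = (qm (pi g⁻¹) (dl g))⁻¹ := by
      intro g hg
      have h1 := h g⁻¹ (D.inv_mem hg) g hg
      rw [inv_mul_cancel, hdl1] at h1
      exact eq_inv_of_mul_eq_one_left h1.symm
    -- claim A
    have hA : ∀ d ∈ D, dl d ≠ 1 → (dl d).toWord.head? = some a := by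
      intro d hd hd1
      by_contra hne
      have h1 : FreeGroup.norm ((dl c)⁻¹ * dl d) = FreeGroup.norm (dl c) + FreeGroup.norm (dl d) := by
        apply norm_inv_mul hc1 hd1
        rw [hat]
        exact fun e => hne e.symm
      have h2 : dl (c⁻¹ * d) = qm (pi c⁻¹) ((dl c)⁻¹ * dl d) := by
        rw [h _ (D.inv_mem hc) d hd, hinv c hc, map_mul, map_inv (qm (pi c⁻¹))]
      have h3 := hn _ (D.mul_mem (D.inv_mem hc) hd)
      rw [h2, norm_qm, h1, hcn'] at h3
      have h4 : FreeGroup.norm (dl d) = 0 := by omega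
      exact hd1 (FreeGroup.norm_eq_zero.1 h4)
    -- claim C
    have hC : ∀ d ∈ D, dl d = 1 → (pi d • a.1, a.2) = a := by
      intro d hd hd1
      have h1 : dl (d * c) = qm (pi d) (dl c) := by rw [h d hd c hc, hd1, one_mul]
      have h2 : dl (d * c) ≠ 1 := by
        intro e
        rw [e] at h1
        have h3 := norm_qm (pi d) (dl c)
        rw [← h1, FreeGroup.norm_one, hcn'] at h3
        omega
      have h3 := hA _ (D.mul_mem hd hc) h2
      rw [h1, head_qm, hat] at h3
      simpa using h3
    set dl' : G → FreeGroup L := fun g => (lt a)⁻¹ * dl g * qm (pi g) (lt a) with hdl'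
    have hcoc : ∀ g ∈ D, ∀ k ∈ D, dl' (g * k) = dl' g * qm (pi g) (dl' k) := by
      intro g hg k hk
      simp only [hdl', h g hg k hk, map_mul, qm_mul, map_inv]
      group
    have hnorm : ∀ g ∈ D, FreeGroup.norm (dl' g) ≤ n := by
      intro g hg
      by_cases hg1 : dl g = 1
      · have h1 : dl' g = 1 := by
          simp only [hdl', hg1, qm_lt, hC g hg hg1, mul_one, inv_mul_cancel]
        rw [h1, FreeGroup.norm_one]
        exact Nat.zero_le _
      · -- the word starts with `a` and ends with the inverse of `g a`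
        have hhead := hA g hg hg1
        obtain ⟨b, s, hbs⟩ := exists_head hg1
        have hba : b = a := by rw [hbs] at hhead; simpa using hhead
        subst hba
        have hgi1 : dl g⁻¹ ≠ 1 := by
          rw [hinv g hg]
          intro e
          have h2 := norm_qm (pi g⁻¹) (dl g)
          rw [inv_eq_one.1 e, FreeGroup.norm_one] at h2
          exact hg1 (FreeGroup.norm_eq_zero.1 h2.symm)
        have h2 := hA _ (D.inv_mem hg) hgi1
        have h3 : (dl g)⁻¹.toWord.head? = some (pi g • b.1, b.2) := by
          have e : (dl g)⁻¹ = qm (pi g) (dl g⁻¹) := by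
            rw [hinv g hg, map_inv, ← qm_mul, ← map_mul, mul_inv_cancel, map_one, qm_one]
          rw [e, head_qm, h2]
          rfl
        have hs : s ≠ [] := by
          rintro rfl
          rw [toWord_inv, hbs] at h3
          simp only [invRev, List.map_cons, List.map_nil, List.reverse_cons, List.reverse_nil, List.nil_append,
            List.head?_cons, Option.some.injEq, Prod.mk.injEq] at h3
          have := h3.2
          cases hb : b.2 <;> simp [hb] at this
        have h4 := head_inv hbs hs
        rw [h3] at h4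
        have h5 := norm_lt_inv_mul h4
        have h6 : (lt (pi g • b.1, b.2))⁻¹ * ((lt b)⁻¹ * dl g)⁻¹ = (dl' g)⁻¹ := by
          simp only [hdl', qm_lt]
          group
        rw [h6, norm_inv_eq, norm_inv_eq] at h5
        have h7 : FreeGroup.norm ((lt b)⁻¹ * dl g) + 1 = FreeGroup.norm (dl g) := norm_lt_inv_mul (by rw [hbs]; rfl)
        have h8 := hn g hg
        omega
    obtain ⟨r, hr⟩ := ih dl' hcoc hnorm
    refine ⟨lt a * r, fun g hg => ?_⟩
    have h1 := hr g hg
    rw [map_mul]
    calc dl g * (qm (pi g) (lt a) * qm (pi g) r) = lt a * (dl' g * qm (pi g) r) := by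
          simp only [hdl']; group
      _ = lt a * r := by rw [h1]

/-- **Finite groups have trivial first cohomology** in a free group whose generators they permute. -/
theorem fin_coboundary (pi : G →* Q) (D : Subgroup G) [Finite D] (dl : G → FreeGroup L)
    (h : ∀ g ∈ D, ∀ h ∈ D, dl (g * h) = dl g * FreeGroup.map (fun l => pi g • l) (dl h)) :
    ∃ r, ∀ g ∈ D, dl g * FreeGroup.map (fun l => pi g • l) r = r := by
  classical
  obtain ⟨n, hn⟩ := (Set.finite_range (fun d : D => FreeGroup.norm (dl d))).bddAbove
  refine step pi D n dl h fun g hg => hn ⟨⟨g, hg⟩, rfl⟩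

end main

end Pool.Agent.Zk63.L43.Fix
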