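import Mathlib

/-!
# Finitely generated subgroups of `FreeGroup Λ ⋊ Q`, `Q` a finite group acting on `Λ`, are virtual retracts

More generally: if `ψ : G → FreeGroup Λ ⋊ Q` is injective on the finitely generated subgroup `H`, then `H` is a
virtual retract of `G`. (helper43)
-/

set_option autoImplicit false

namespace Pool.Agent.Zk63.L43.LRA

universe u v w

section act

variable {Λ : Type v} {Q : Type w} [Group Q] [MulAction Q Λ]

/-- the action of `Q` on the free group on `Λ` -/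
def act (Λ : Type v) (Q : Type w) [Group Q] [MulAction Q Λ] : Q →* MulAut (FreeGroup Λ) where
  toFun q := FreeGroup.freeGroupCongr (MulAction.toPerm q)
  map_one' := by
    ext x
    have e : ∀ x : FreeGroup Λ, (FreeGroup.map ⇑(MulAction.toPerm (1 : Q))) x = x := by
      intro x
      have : (⇑(MulAction.toPerm (1 : Q)) : Λ → Λ) = id := by
        funext l
        simp
      rw [this, FreeGroup.map.id]
    simpa using e x
  map_mul' a b := by
    ext x
    have e : ∀ x : FreeGroup Λ, (FreeGroup.map ⇑(MulAction.toPerm (a * b))) x =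
        (FreeGroup.map ⇑(MulAction.toPerm a)) ((FreeGroup.map ⇑(MulAction.toPerm b)) x) := by
      intro x
      rw [FreeGroup.map.comp]
      congr 2
      funext l
      simp [mul_smul]
    simpa using e x

@[simp] theorem act_of (q : Q) (l : Λ) : act Λ Q q (FreeGroup.of l) = FreeGroup.of (q • l) := by
  simp [act]

/-- vertices and midpoints of the edges of the tree -/
abbrev Pt (Λ : Type v) := FreeGroup Λ ⊕ (FreeGroup Λ × Λ)

/-- the action on the tree -/
def mv (g : FreeGroup Λ ⋊[act Λ Q] Q) : Pt Λ → Pt Λ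
  | Sum.inl v => Sum.inl (g.left * act Λ Q g.right v)
  | Sum.inr (v, l) => Sum.inr (g.left * act Λ Q g.right v, g.right • l)

theorem mv_one (x : Pt Λ) : mv (1 : FreeGroup Λ ⋊[act Λ Q] Q) x = x := by
  rcases x with v | ⟨v, l⟩ <;> simp [mv]

theorem mv_mul (g h : FreeGroup Λ ⋊[act Λ Q] Q) (x : Pt Λ) : mv (g * h) x = mv g (mv h x) := by
  rcases x with v | ⟨v, l⟩ <;> simp [mv, mul_smul, mul_assoc]

open Classical in
/-- the involution `v ↔ (v, l)` -/
noncomputable def sI (l : Λ) : Pt Λ → Pt Λ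
  | Sum.inl v => Sum.inr (v, l)
  | Sum.inr (v, m) => if m = l then Sum.inl v else Sum.inr (v, m)

open Classical in
/-- the involution `(v, l) ↔ v l` -/
noncomputable def tI (l : Λ) : Pt Λ → Pt Λ
  | Sum.inl v => Sum.inr (v * (FreeGroup.of l)⁻¹, l)
  | Sum.inr (v, m) => if m = l then Sum.inl (v * FreeGroup.of l) else Sum.inr (v, m)

theorem sI_inv (l : Λ) (x : Pt Λ) : sI l (sI l x) = x := by
  rcases x with v | ⟨v, m⟩
  · simp [sI]
  · by_cases h : m = l
    · subst h; simp [sI]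
    · simp [sI, h]

theorem tI_inv (l : Λ) (x : Pt Λ) : tI l (tI l x) = x := by
  rcases x with v | ⟨v, m⟩
  · simp [tI]
  · by_cases h : m = l
    · subst h; simp [tI]
    · simp [tI, h]

theorem sI_mv (g : FreeGroup Λ ⋊[act Λ Q] Q) (l : Λ) (x : Pt Λ) :
    mv g (sI l x) = sI (g.right • l) (mv g x) := by
  rcases x with v | ⟨v, m⟩
  · simp [sI, mv]
  · by_cases h : m = l
    · subst h; simp [sI, mv]
    · have h' : g.right • m ≠ g.right • l := fun e => h (MulAction.injective g.right e)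
      simp [sI, mv, h]

theorem tI_mv (g : FreeGroup Λ ⋊[act Λ Q] Q) (l : Λ) (x : Pt Λ) :
    mv g (tI l x) = tI (g.right • l) (mv g x) := by
  rcases x with v | ⟨v, m⟩
  · simp [tI, mv, mul_assoc]
  · by_cases h : m = l
    · subst h; simp [tI, mv, mul_assoc]
    · simp [tI, mv, h]

open Classical in
/-- bounce: apply the involution if the image is in `Y`, stay otherwise -/
noncomputable def bounce (Y : Set (Pt Λ)) (f : Pt Λ → Pt Λ) (hf : ∀ x, f (f x) = x) : Equiv.Perm Y where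
  toFun y := if h : f y ∈ Y then ⟨f y, h⟩ else y
  invFun y := if h : f y ∈ Y then ⟨f y, h⟩ else y
  left_inv y := by
    by_cases h : f y ∈ Y
    · simp only [h, dif_pos]
      apply Subtype.ext
      simp only [hf, y.2, dif_pos]
    · simp [h]
  right_inv y := by
    by_cases h : f y ∈ Y
    · simp only [h, dif_pos]
      apply Subtype.ext
      simp only [hf, y.2, dif_pos]
    · simp [h]

theorem bounce_pos {Y : Set (Pt Λ)} {f : Pt Λ → Pt Λ} (hf : ∀ x, f (f x) = x) (y : Y) (h : f y ∈ Y) :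
    ((bounce Y f hf y : Y) : Pt Λ) = f y := by
  simp [bounce, h]

theorem bounce_neg {Y : Set (Pt Λ)} {f : Pt Λ → Pt Λ} (hf : ∀ x, f (f x) = x) (y : Y) (h : f y ∉ Y) :
    bounce Y f hf y = y := by
  simp [bounce, h]

theorem bounce_inv {Y : Set (Pt Λ)} {f : Pt Λ → Pt Λ} (hf : ∀ x, f (f x) = x) :
    (bounce Y f hf)⁻¹ = bounce Y f hf := rfl

/-- the left action of the free group on `Y` -/
noncomputable def L (Y : Set (Pt Λ)) : FreeGroup Λ →* Equiv.Perm Y :=
  FreeGroup.lift fun l => bounce Y (sI l) (sI_inv l) * bounce Y (tI l) (tI_inv l)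

/-- `g` maps `Y` to `Y` -/
noncomputable def mvY {Y : Set (Pt Λ)} {g : FreeGroup Λ ⋊[act Λ Q] Q} (hg : ∀ x, x ∈ Y ↔ mv g x ∈ Y) (y : Y) : Y :=
  ⟨mv g y, (hg y).1 y.2⟩

theorem bounce_mv {Y : Set (Pt Λ)} {g : FreeGroup Λ ⋊[act Λ Q] Q} (hg : ∀ x, x ∈ Y ↔ mv g x ∈ Y)
    {f f' : Pt Λ → Pt Λ} (hf : ∀ x, f (f x) = x) (hf' : ∀ x, f' (f' x) = x)
    (h : ∀ x, mv g (f x) = f' (mv g x)) (y : Y) :
    mvY hg (bounce Y f hf y) = bounce Y f' hf' (mvY hg y) := by
  apply Subtype.ext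
  by_cases h1 : f y ∈ Y
  · have h2 : f' (mvY hg y) ∈ Y := by
      show f' (mv g y) ∈ Y
      rw [← h]
      exact (hg _).1 h1
    rw [bounce_pos hf' _ h2]
    show mv g (bounce Y f hf y) = f' (mv g y)
    rw [bounce_pos hf _ h1, h]
  · have h2 : f' (mvY hg y) ∉ Y := by
      show f' (mv g y) ∉ Y
      rw [← h]
      exact fun h3 => h1 ((hg _).2 h3)
    rw [bounce_neg hf' _ h2, bounce_neg hf _ h1]

theorem L_mv {Y : Set (Pt Λ)} {g : FreeGroup Λ ⋊[act Λ Q] Q} (hg : ∀ x, x ∈ Y ↔ mv g x ∈ Y)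
    (u : FreeGroup Λ) (y : Y) :
    mvY hg (L Y u y) = L Y (act Λ Q g.right u) (mvY hg y) := by
  have hs := fun l : Λ => bounce_mv hg (sI_inv l) (sI_inv (g.right • l)) (sI_mv g l)
  have ht := fun l : Λ => bounce_mv hg (tI_inv l) (tI_inv (g.right • l)) (tI_mv g l)
  induction u using FreeGroup.induction_on generalizing y with
  | C1 => simp
  | of l =>
    simp only [L, FreeGroup.lift_apply_of, act_of, Equiv.Perm.mul_apply]
    rw [hs, ht]
  | inv_of l _ =>
    simp only [map_inv, L, FreeGroup.lift_apply_of, act_of, mul_inv_rev, bounce_inv, Equiv.Perm.mul_apply]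
    rw [ht, hs]
  | mul x z h1 h2 =>
    simp only [map_mul, Equiv.Perm.mul_apply]
    rw [h1, h2]

/-- the points on the path from `v` along the word -/
def path : FreeGroup Λ → List (Λ × Bool) → List (Pt Λ)
  | v, [] => [Sum.inl v]
  | v, (l, true) :: w => Sum.inl v :: Sum.inr (v, l) :: path (v * FreeGroup.of l) w
  | v, (l, false) :: w => Sum.inl v :: Sum.inr (v * (FreeGroup.of l)⁻¹, l) :: path (v * (FreeGroup.of l)⁻¹) w

theorem start_mem_path (v : FreeGroup Λ) (w : List (Λ × Bool)) : Sum.inl v ∈ path v w := by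
  rcases w with _ | ⟨⟨l, b⟩, w⟩
  · simp [path]
  · cases b <;> simp [path]

/-- along a path in `Y` the action is multiplication -/
theorem L_path {Y : Set (Pt Λ)} (w : List (Λ × Bool)) : ∀ (v : FreeGroup Λ) (y : Y), (y : Pt Λ) = Sum.inl v →
    (∀ x ∈ path v w, x ∈ Y) → ((L Y (FreeGroup.mk w)⁻¹ y : Y) : Pt Λ) = Sum.inl (v * FreeGroup.mk w) := by
  induction w with
  | nil =>
    intro v y hy _
    have : (FreeGroup.mk ([] : List (Λ × Bool))) = 1 := rfl
    simp [this, hy]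
  | cons a w ih =>
    intro v y hy hp
    obtain ⟨l, b⟩ := a
    have e : FreeGroup.mk ((l, b) :: w) = FreeGroup.mk [(l, b)] * FreeGroup.mk w := by
      rw [FreeGroup.mul_mk]; rfl
    rw [e, mul_inv_rev, map_mul, Equiv.Perm.mul_apply]
    cases b
    · have e2 : (FreeGroup.mk [(l, false)] : FreeGroup Λ) = (FreeGroup.of l)⁻¹ := by
        rw [FreeGroup.of, FreeGroup.inv_mk]; rfl
      have h1 : Sum.inr (v * (FreeGroup.of l)⁻¹, l) ∈ Y := hp _ (by simp [path])
      have h2 : ∀ x ∈ path (v * (FreeGroup.of l)⁻¹) w, x ∈ Y := fun x hx => hp x (by simp [path, hx])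
      have h3 : Sum.inl (v * (FreeGroup.of l)⁻¹) ∈ Y := h2 _ (start_mem_path _ _)
      rw [e2, inv_inv]
      have k1 : tI l (y : Pt Λ) = Sum.inr (v * (FreeGroup.of l)⁻¹, l) := by rw [hy]; rfl
      have k2 := bounce_pos (tI_inv l) y (by rw [k1]; exact h1)
      have k3 : sI l ((bounce Y (tI l) (tI_inv l) y : Y) : Pt Λ) = Sum.inl (v * (FreeGroup.of l)⁻¹) := by
        rw [k2, k1]; simp [sI]
      have k4 := bounce_pos (sI_inv l) (bounce Y (tI l) (tI_inv l) y) (by rw [k3]; exact h3)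
      have k5 : ((L Y (FreeGroup.of l) y : Y) : Pt Λ) = Sum.inl (v * (FreeGroup.of l)⁻¹) := by
        simp only [L, FreeGroup.lift_apply_of, Equiv.Perm.mul_apply]
        rw [k4, k3]
      rw [ih _ _ k5 h2, mul_assoc]
    · have e2 : (FreeGroup.mk [(l, true)] : FreeGroup Λ) = FreeGroup.of l := rfl
      have h1 : Sum.inr (v, l) ∈ Y := hp _ (by simp [path])
      have h2 : ∀ x ∈ path (v * FreeGroup.of l) w, x ∈ Y := fun x hx => hp x (by simp [path, hx])
      have h3 : Sum.inl (v * FreeGroup.of l) ∈ Y := h2 _ (start_mem_path _ _)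
      rw [e2]
      have k1 : sI l (y : Pt Λ) = Sum.inr (v, l) := by rw [hy]; rfl
      have k2 := bounce_pos (sI_inv l) y (by rw [k1]; exact h1)
      have k3 : tI l ((bounce Y (sI l) (sI_inv l) y : Y) : Pt Λ) = Sum.inl (v * FreeGroup.of l) := by
        rw [k2, k1]; simp [tI]
      have k4 := bounce_pos (tI_inv l) (bounce Y (sI l) (sI_inv l) y) (by rw [k3]; exact h3)
      have k5 : ((L Y (FreeGroup.of l)⁻¹ y : Y) : Pt Λ) = Sum.inl (v * FreeGroup.of l) := by
        simp only [map_inv, L, FreeGroup.lift_apply_of, mul_inv_rev, bounce_inv, Equiv.Perm.mul_apply]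
        rw [k4, k3]
      rw [ih _ _ k5 h2, mul_assoc]

end act

section main

variable {G : Type u} {Λ : Type v} {Q : Type w} [Group G] [Group Q] [MulAction Q Λ]

/-- the right action of `G` on `Y × Q` -/
noncomputable def R (ψ : G →* FreeGroup Λ ⋊[act Λ Q] Q) (Y : Set (Pt Λ)) (x : Y × Q) (g : G) : Y × Q :=
  (L Y (act Λ Q x.2 (ψ g).left)⁻¹ x.1, x.2 * (ψ g).right)

theorem R_one (ψ : G →* FreeGroup Λ ⋊[act Λ Q] Q) (Y : Set (Pt Λ)) (x : Y × Q) : R ψ Y x 1 = x := by
  simp [R]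

theorem R_mul (ψ : G →* FreeGroup Λ ⋊[act Λ Q] Q) (Y : Set (Pt Λ)) (x : Y × Q) (g h : G) :
    R ψ Y x (g * h) = R ψ Y (R ψ Y x g) h := by
  simp only [R, map_mul, SemidirectProduct.mul_left, SemidirectProduct.mul_right, mul_inv_rev,
    Equiv.Perm.mul_apply, MulAut.mul_apply, mul_assoc]

/-- the left action of a subgroup `H` preserving `Y` -/
noncomputable def M (ψ : G →* FreeGroup Λ ⋊[act Λ Q] Q) {Y : Set (Pt Λ)} {h : G}
    (hY : ∀ x, x ∈ Y ↔ mv (ψ h) x ∈ Y) (x : Y × Q) : Y × Q :=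
  (mvY hY x.1, (ψ h).right * x.2)

theorem M_R (ψ : G →* FreeGroup Λ ⋊[act Λ Q] Q) {Y : Set (Pt Λ)} {h : G}
    (hY : ∀ x, x ∈ Y ↔ mv (ψ h) x ∈ Y) (x : Y × Q) (g : G) :
    M ψ hY (R ψ Y x g) = R ψ Y (M ψ hY x) g := by
  simp only [M, R, Prod.mk.injEq]
  refine ⟨?_, by rw [mul_assoc]⟩
  rw [L_mv]
  simp

/-- **Virtual retracts.** If `ψ : G → FreeGroup Λ ⋊ Q` is injective on the finitely generated subgroup `H` and `Q` is
finite, then `H` is a virtual retract of `G`. -/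
theorem lr [Finite Q] (ψ : G →* FreeGroup Λ ⋊[act Λ Q] Q) (H : Subgroup G) (hH : H.FG)
    (hinj : Set.InjOn ψ H) :
    ∃ K : Subgroup G, K.FiniteIndex ∧ H ≤ K ∧
      ∃ ρ : K →* G, (∀ k : K, ρ k ∈ H) ∧ ∀ h : G, ∀ hk : h ∈ K, h ∈ H → ρ ⟨h, hk⟩ = h := by
  classical
  obtain ⟨S, hS⟩ := hH
  -- the finite set of points
  set P : Set (Pt Λ) := {Sum.inl 1} ∪ ⋃ s ∈ S, {x | x ∈ path 1 (ψ s).left.toWord} with hP
  have hPfin : P.Finite := by
    apply (Set.finite_singleton _).union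
    apply Set.Finite.biUnion S.finite_toSet
    intro s _
    exact List.finite_toSet _
  set Y : Set (Pt Λ) := {x | ∃ h ∈ H, ∃ p ∈ P, x = mv (ψ h) p} with hYdef
  have hY1 : ∀ h ∈ H, ∀ x, x ∈ Y → mv (ψ h) x ∈ Y := by
    rintro h hh x ⟨h', hh', p, hp, rfl⟩
    exact ⟨h * h', H.mul_mem hh hh', p, hp, by rw [map_mul, mv_mul]⟩
  have hY : ∀ h ∈ H, ∀ x, x ∈ Y ↔ mv (ψ h) x ∈ Y := by
    intro h hh x
    refine ⟨hY1 h hh x, fun h1 => ?_⟩
    have h2 := hY1 h⁻¹ (H.inv_mem hh) _ h1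
    rwa [← mv_mul, ← map_mul, inv_mul_cancel, map_one, mv_one] at h2
  have hPY : ∀ p ∈ P, p ∈ Y := fun p hp => ⟨1, H.one_mem, p, hp, by rw [map_one, mv_one]⟩
  have h1Y : (Sum.inl 1 : Pt Λ) ∈ Y := hPY _ (Or.inl rfl)
  set x₀ : Y × Q := (⟨Sum.inl 1, h1Y⟩, 1) with hx₀
  -- the left action
  set lm : H → Y × Q → Y × Q := fun h => M ψ (hY h h.2) with hlm
  have lm_mul : ∀ (h h' : H) (x : Y × Q), lm (h * h') x = lm h (lm h' x) := by
    intro h h' x
    simp only [hlm, M, mvY, map_mul, mv_mul, SemidirectProduct.mul_right, mul_assoc, Subgroup.coe_mul]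
  have lm_one : ∀ x : Y × Q, lm 1 x = x := by
    intro x
    simp only [hlm, M, mvY, map_one, mv_one, SemidirectProduct.one_right, one_mul, Subtype.coe_eta, Prod.mk.eta,
      Subgroup.coe_one]
  have lm_R : ∀ (h : H) (x : Y × Q) (g : G), lm h (R ψ Y x g) = R ψ Y (lm h x) g :=
    fun h x g => M_R ψ (hY h h.2) x g
  have lm_x₀ : ∀ h : H, (((lm h x₀).1 : Y) : Pt Λ) = Sum.inl (ψ h).left ∧ (lm h x₀).2 = (ψ h).right := by
    intro h
    constructor
    · simp only [hlm, M, mvY, hx₀, mul_one, mv, map_one]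
    · simp only [hlm, M, hx₀, mul_one]
  have lm_inj : ∀ h h' : H, lm h x₀ = lm h' x₀ → h = h' := by
    intro h h' e
    have h1 := lm_x₀ h
    have h2 := lm_x₀ h'
    rw [e] at h1
    have h3 : (ψ h).left = (ψ h').left := Sum.inl.inj (h1.1.symm.trans h2.1)
    have h4 : (ψ h).right = (ψ h').right := h1.2.symm.trans h2.2
    exact Subtype.ext (hinj h.2 h'.2 (SemidirectProduct.ext h3 h4))
  -- the generators
  have hgen : ∀ s (hs : s ∈ S) (hh : s ∈ H), R ψ Y x₀ s = lm ⟨s, hh⟩ x₀ := by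
    intro s hs hh
    have h1 : ∀ x ∈ path 1 (ψ s).left.toWord, x ∈ Y := by
      intro x hx
      apply hPY
      refine Or.inr ?_
      simp only [Set.mem_iUnion]
      exact ⟨s, hs, hx⟩
    have h2 := L_path (Y := Y) (ψ s).left.toWord 1 ⟨Sum.inl 1, h1Y⟩ rfl h1
    rw [FreeGroup.mk_toWord, one_mul] at h2
    obtain ⟨h3, h4⟩ := lm_x₀ ⟨s, hh⟩
    refine Prod.ext (Subtype.ext ?_) ?_
    · rw [h3]
      simp only [R, hx₀, map_one, MulAut.one_apply]
      exact h2
    · rw [h4]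
      simp only [R, hx₀, one_mul]
  have hall : ∀ h (hh : h ∈ H), R ψ Y x₀ h = lm ⟨h, hh⟩ x₀ := by
    intro h hh
    have hh' : h ∈ Subgroup.closure (S : Set G) := by rw [hS]; exact hh
    revert hh
    induction hh' using Subgroup.closure_induction with
    | mem x hx => exact fun hh => hgen x hx hh
    | one =>
      intro hh
      rw [R_one]
      exact (lm_one x₀).symm
    | mul a b ha hb iha ihb =>
      intro hh
      rw [hS] at ha hb
      rw [R_mul, iha ha, ← lm_R, ihb hb, ← lm_mul]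
    | inv a ha iha =>
      intro hh
      rw [hS] at ha
      have h1 := iha ha
      have h2 : lm ⟨a⁻¹, hh⟩ (R ψ Y (R ψ Y x₀ a) a⁻¹) = lm ⟨a⁻¹, hh⟩ x₀ := by
        rw [← R_mul, mul_inv_cancel, R_one]
      rw [h1, ← lm_R, ← lm_mul] at h2
      have h3 : (⟨a⁻¹, hh⟩ * ⟨a, ha⟩ : H) = 1 := Subtype.ext (inv_mul_cancel a)
      rw [h3, lm_one] at h2
      exact h2
  -- the subgroup
  set K : Subgroup G :=
    { carrier := {g | ∃ h : H, R ψ Y x₀ g = lm h x₀}
      mul_mem' := by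
        rintro a b ⟨h, e⟩ ⟨h', e'⟩
        exact ⟨h * h', by rw [R_mul, e, ← lm_R, e', lm_mul]⟩
      one_mem' := ⟨1, by rw [R_one, lm_one]⟩
      inv_mem' := by
        rintro a ⟨h, e⟩
        refine ⟨h⁻¹, ?_⟩
        have h2 : lm h⁻¹ (R ψ Y (R ψ Y x₀ a) a⁻¹) = lm h⁻¹ x₀ := by
          rw [← R_mul, mul_inv_cancel, R_one]
        rw [e, ← lm_R, ← lm_mul, inv_mul_cancel, lm_one] at h2
        exact h2 } with hK
  have hKmem : ∀ g, g ∈ K ↔ ∃ h : H, R ψ Y x₀ g = lm h x₀ := fun g => Iff.rfl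
  have hex : ∀ k : K, ∃ h : H, R ψ Y x₀ k = lm h x₀ := fun k => (hKmem k).1 k.2
  choose r hr2 using hex
  have hr3 : ∀ (k : K) (h : H), R ψ Y x₀ k = lm h x₀ → r k = h := by
    intro k h e
    exact lm_inj _ _ ((hr2 k).symm.trans e)
  refine ⟨K, ?_, fun h hh => ⟨⟨h, hh⟩, hall h hh⟩, ?_⟩
  · -- finite index
    -- each point is in the orbit of a point in the finite set `P × Q`
    have horb : ∀ x : Y × Q, ∃ z : P × Q, ∃ h : H, x = lm h (⟨z.1, hPY z.1 z.1.2⟩, z.2) := by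
      rintro ⟨⟨y, h, hh, p, hp, rfl⟩, q⟩
      refine ⟨(⟨p, hp⟩, (ψ h).right⁻¹ * q), ⟨h, hh⟩, ?_⟩
      simp only [hlm, M, mvY, mul_inv_cancel_left]
    choose c hc using horb
    have : Finite P := hPfin.to_subtype
    have hcos : ∀ g g' : G, c (R ψ Y x₀ g) = c (R ψ Y x₀ g') → g * g'⁻¹ ∈ K := by
      intro g g' e
      obtain ⟨h, e1⟩ := hc (R ψ Y x₀ g)
      obtain ⟨h', e2⟩ := hc (R ψ Y x₀ g')
      rw [← e] at e2
      rw [hKmem]
      refine ⟨h * h'⁻¹, ?_⟩
      have e3 : lm h'⁻¹ (R ψ Y x₀ g') = (⟨(c (R ψ Y x₀ g)).1, hPY _ (c (R ψ Y x₀ g)).1.2⟩, (c (R ψ Y x₀ g)).2) := by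
        rw [e2, ← lm_mul, inv_mul_cancel, lm_one]
      rw [R_mul, e1, ← e3, ← lm_mul, ← lm_R, ← R_mul, mul_inv_cancel, R_one]
    have hf : ∀ g g' : G, c (R ψ Y x₀ g⁻¹) = c (R ψ Y x₀ g'⁻¹) →
        (QuotientGroup.mk g : G ⧸ K) = QuotientGroup.mk g' := by
      intro g g' e
      rw [QuotientGroup.eq]
      have := hcos _ _ e
      rwa [inv_inv] at this
    have hfin : Finite (G ⧸ K) := by
      refine Finite.of_injective (fun a : G ⧸ K => c (R ψ Y x₀ (Quotient.out a)⁻¹)) ?_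
      intro a b hab
      have := hf _ _ hab
      rwa [QuotientGroup.out_eq', QuotientGroup.out_eq'] at this
    exact Subgroup.finiteIndex_of_finite_quotient
  · refine ⟨{ toFun := fun k => r k, map_one' := ?_, map_mul' := ?_ }, fun k => (r k).2, ?_⟩
    · have := hr3 1 1 (by rw [Subgroup.coe_one, R_one, lm_one])
      rw [this, Subgroup.coe_one]
    · intro a b
      have := hr3 (a * b) (r a * r b) (by
        rw [Subgroup.coe_mul, R_mul, hr2 a, ← lm_R, hr2 b, lm_mul])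
      rw [this, Subgroup.coe_mul]
    · intro h hk hh
      have := hr3 ⟨h, hk⟩ ⟨h, hh⟩ (hall h hh)
      show ((r ⟨h, hk⟩ : H) : G) = h
      rw [this]

/-- The same in terms of the crossed homomorphism. -/
theorem lr_crossed {G Q L : Type*} [Group G] [Group Q] [Finite Q] [MulAction Q L] (pi : G →* Q)
    (z : G → FreeGroup L)
    (hz : ∀ g h, z (g * h) = z g * FreeGroup.map (fun l => pi g • l) (z h)) (H : Subgroup G) (hH : H.FG)
    (hinj : ∀ h ∈ H, pi h = 1 → z h = 1 → h = 1) :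
    ∃ K : Subgroup G, K.FiniteIndex ∧ H ≤ K ∧
      ∃ rho : K →* G, (∀ k : K, rho k ∈ H) ∧ ∀ h : G, ∀ hk : h ∈ K, h ∈ H → rho ⟨h, hk⟩ = h := by
  have hact : ∀ (q : Q) (x : FreeGroup L), act L Q q x = FreeGroup.map (fun l => q • l) x := fun q x => rfl
  have hz1 : z 1 = 1 := by
    have h := hz 1 1
    rw [mul_one] at h
    have h1 : FreeGroup.map (fun l => pi 1 • l) (z 1) = z 1 := by
      have e : (fun l : L => pi 1 • l) = id := by
        funext l
        simp
      rw [e, FreeGroup.map.id]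
    rw [h1] at h
    exact mul_eq_left.1 h.symm
  let ψ : G →* FreeGroup L ⋊[act L Q] Q :=
    { toFun := fun g => ⟨z g, pi g⟩
      map_one' := by rw [hz1, map_one]; rfl
      map_mul' := fun g h => by
        refine SemidirectProduct.ext ?_ ?_
        · rw [SemidirectProduct.mul_left, hact]
          exact hz g h
        · rw [SemidirectProduct.mul_right, map_mul] }
  refine lr ψ H hH ?_
  have hker : ∀ h ∈ H, ψ h = 1 → h = 1 := by
    intro h hh e
    refine hinj h hh ?_ ?_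
    · exact congrArg SemidirectProduct.right e
    · exact congrArg SemidirectProduct.left e
  intro a ha b hb e
  have h1 : a * b⁻¹ = 1 := by
    refine hker _ (H.mul_mem ha (H.inv_mem hb)) ?_
    rw [map_mul, map_inv, e, mul_inv_cancel]
  exact mul_inv_eq_one.1 h1

end main

end Pool.Agent.Zk63.L43.LRA
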