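import Pool.Agent.Zk63.L43.Fix

/-!
# First letters of products and powers in free groups

(helper43)
-/

set_option autoImplicit false

namespace Pool.Agent.Zk63.L43.Words

open FreeGroup hiding map_one map_mul map_inv IsReduced norm norm_one norm_eq_zero
open Pool.Agent.Zk63.L43.Fix

variable {L : Type*} [DecidableEq L]

theorem norm_lt (s : L × Bool) : FreeGroup.norm (lt s) = 1 := by
  have h : FreeGroup.IsReduced [s] := FreeGroup.IsReduced.singleton
  rw [FreeGroup.norm, lt, toWord_mk, h.reduce_eq]
  rfl

theorem lt_inv (s : L × Bool) : (lt s)⁻¹ = lt (s.1, !s.2) := by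
  rw [lt, lt, FreeGroup.inv_mk]
  rfl

theorem head_mul_lt {m : FreeGroup L} {s : L × Bool} (h1 : m ≠ 1) (h2 : m ≠ (lt s)⁻¹) :
    (m * lt s).toWord.head? = m.toWord.head? := by
  obtain ⟨a, t, hat⟩ := exists_head h1
  have hred : FreeGroup.IsReduced (a :: t) := by
    have : FreeGroup.IsReduced m.toWord := isReduced_toWord
    rwa [hat] at this
  have hm : m = FreeGroup.mk (a :: t) := by rw [← hat, mk_toWord]
  rcases List.eq_nil_or_concat t with ht | ⟨t', b, ht⟩
  · -- one letter
    subst ht
    have hs : ¬ (a.1 = s.1 ∧ a.2 = !s.2) := by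
      rintro ⟨e1, e2⟩
      apply h2
      rw [lt_inv, hm, lt]
      congr 2
      exact Prod.ext e1 e2
    have hr : FreeGroup.IsReduced [a, s] := by
      show List.IsChain _ [a, s]
      rw [List.isChain_cons_cons]
      refine ⟨fun e => ?_, FreeGroup.IsReduced.singleton⟩
      by_contra h
      apply hs
      refine ⟨e, ?_⟩
      cases h4 : a.2 <;> cases h5 : s.2 <;> simp_all
    have e : m * lt s = FreeGroup.mk [a, s] := by
      rw [hm, lt, FreeGroup.mul_mk]; rfl
    rw [e, toWord_mk, hr.reduce_eq, hat]
    rfl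
  · rw [List.concat_eq_append] at ht
    subst ht
    by_cases hb : b = (s.1, !s.2)
    · -- the last letter is cancelled
      have hr : FreeGroup.IsReduced (a :: t') := Pool.Agent.Zk63.LR.red_sub hred ⟨[], [b], by simp⟩
      have e : m * lt s = FreeGroup.mk (a :: t') := by
        have e1 : m = FreeGroup.mk (a :: t') * (lt s)⁻¹ := by
          rw [hm, lt_inv, ← hb, lt, FreeGroup.mul_mk]
          rfl
        rw [e1]; group
      rw [e, toWord_mk, hr.reduce_eq, hat]
      rfl
    · have hr : FreeGroup.IsReduced ((a :: t') ++ [b] ++ [s]) := by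
        refine FreeGroup.IsReduced.append_overlap ?_ ?_ (by simp)
        · simpa using hred
        · show List.IsChain _ [b, s]
          rw [List.isChain_cons_cons]
          refine ⟨fun e => ?_, FreeGroup.IsReduced.singleton⟩
          by_contra h
          apply hb
          refine Prod.ext e ?_
          cases h4 : b.2 <;> cases h5 : s.2 <;> simp_all
      have e : m * lt s = FreeGroup.mk ((a :: t') ++ [b] ++ [s]) := by
        rw [hm, lt, FreeGroup.mul_mk]
        simp
      rw [e, toWord_mk, hr.reduce_eq, hat]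
      rfl

theorem mk_concat (w : List (L × Bool)) (s : L × Bool) : FreeGroup.mk (w ++ [s]) = FreeGroup.mk w * lt s := by
  rw [lt, FreeGroup.mul_mk]

theorem norm_le_mul (x y : FreeGroup L) : FreeGroup.norm x ≤ FreeGroup.norm (x * y) + FreeGroup.norm y := by
  have h := norm_mul_le (x * y) y⁻¹
  rwa [mul_inv_cancel_right, norm_inv_eq] at h

theorem head_mul_list (x : FreeGroup L) (w : List (L × Bool)) (h : w.length < FreeGroup.norm x) :
    (x * FreeGroup.mk w).toWord.head? = x.toWord.head? := by
  induction w using List.reverseRecOn with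
  | nil =>
    have : (FreeGroup.mk ([] : List (L × Bool))) = 1 := rfl
    rw [this, mul_one]
  | append_singleton w s ih =>
    rw [List.length_append, List.length_singleton] at h
    have h1 : w.length < FreeGroup.norm x := by omega
    rw [mk_concat, ← mul_assoc, head_mul_lt, ih h1]
    · intro e
      have h2 := norm_le_mul x (FreeGroup.mk w)
      rw [e, FreeGroup.norm_one] at h2
      have h3 : FreeGroup.norm (FreeGroup.mk w) ≤ w.length := norm_mk_le
      omega
    · intro e
      have h2 := norm_le_mul x (FreeGroup.mk w)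
      rw [e, norm_inv_eq, norm_lt] at h2
      have h3 : FreeGroup.norm (FreeGroup.mk w) ≤ w.length := norm_mk_le
      omega

theorem head_mul {x y : FreeGroup L} (h : FreeGroup.norm y < FreeGroup.norm x) :
    (x * y).toWord.head? = x.toWord.head? := by
  have := head_mul_list x y.toWord h
  rwa [mk_toWord] at this

theorem exists_finite_list (w : List (L × Bool)) : ∃ B : Set (FreeGroup L), B.Finite ∧
    ∀ m ∉ B, (m * FreeGroup.mk w).toWord.head? = m.toWord.head? := by
  induction w using List.reverseRecOn with
  | nil =>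
    refine ⟨∅, Set.finite_empty, fun m _ => ?_⟩
    have : (FreeGroup.mk ([] : List (L × Bool))) = 1 := rfl
    rw [this, mul_one]
  | append_singleton w s ih =>
    obtain ⟨B, hB, h⟩ := ih
    refine ⟨B ∪ {(FreeGroup.mk w)⁻¹, (lt s)⁻¹ * (FreeGroup.mk w)⁻¹}, hB.union (by simp), fun m hm => ?_⟩
    rw [Set.mem_union, not_or, Set.mem_insert_iff, not_or, Set.mem_singleton_iff] at hm
    rw [mk_concat, ← mul_assoc, head_mul_lt, h m hm.1]
    · intro e
      exact hm.2.1 (eq_inv_of_mul_eq_one_left e)
    · intro e
      exact hm.2.2 (eq_mul_inv_of_mul_eq e)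

theorem exists_finite_head (c : FreeGroup L) : ∃ B : Set (FreeGroup L), B.Finite ∧
    ∀ m ∉ B, (m * c).toWord.head? = m.toWord.head? := by
  have := exists_finite_list c.toWord
  rwa [mk_toWord] at this

/-- powers of a cyclically reduced word -/
theorem toWord_pow_cyc {w : List (L × Bool)} (hw : IsCyclicallyReduced w) (n : ℕ) :
    (FreeGroup.mk w ^ n).toWord = (List.replicate n w).flatten := by
  have h1 : (FreeGroup.mk w).toWord = w := by rw [toWord_mk, hw.isReduced.reduce_eq]
  have h2 := toWord_pow (FreeGroup.mk w) n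
  rw [h1] at h2
  rw [h2]
  exact (hw.flatten_replicate n).isReduced.reduce_eq

theorem head_flatten {w : List (L × Bool)} (hw : w ≠ []) {n : ℕ} (hn : 1 ≤ n) :
    (List.replicate n w).flatten.head? = w.head? := by
  obtain ⟨k, rfl⟩ : ∃ k, n = k + 1 := ⟨n - 1, by omega⟩
  rw [List.replicate_succ, List.flatten_cons, List.head?_append_of_ne_nil _ hw]

theorem last_flatten {w : List (L × Bool)} (hw : w ≠ []) {n : ℕ} (hn : 1 ≤ n) :
    (List.replicate n w).flatten.getLast? = w.getLast? := by
  obtain ⟨k, rfl⟩ : ∃ k, n = k + 1 := ⟨n - 1, by omega⟩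
  rw [List.replicate_succ', List.flatten_concat, List.getLast?_append_of_ne_nil _ hw]

theorem head_inv_toWord (x : FreeGroup L) :
    x⁻¹.toWord.head? = x.toWord.getLast?.map (fun a => (a.1, !a.2)) := by
  rw [toWord_inv, invRev, List.head?_reverse, List.getLast?_map]

/-- **powers**: `f = u v u⁻¹`, and `v^n y`, `v^-n y` start with different letters for large `n` -/
theorem pow_head {f : FreeGroup L} (hf : f ≠ 1) : ∃ (u v : FreeGroup L) (a : L × Bool), f = u * v * u⁻¹ ∧
    ∀ y : FreeGroup L, ∃ K : ℕ, ∀ n ≥ K, (v ^ n * y).toWord.head? = some a ∧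
      ((v ^ n)⁻¹ * y).toWord.head? ≠ some a := by
  set w := reduceCyclically f.toWord with hw
  set u := reduceCyclically.conjugator f.toWord with hu
  have hcyc : IsCyclicallyReduced w := reduceCyclically.isCyclicallyReduced isReduced_toWord
  have hconj : u ++ w ++ invRev u = f.toWord := by
    have := reduceCyclically.conj_conjugator_reduceCyclically f.toWord
    simpa using this
  have hf' : f = FreeGroup.mk u * FreeGroup.mk w * (FreeGroup.mk u)⁻¹ := by
    rw [FreeGroup.inv_mk, FreeGroup.mul_mk, FreeGroup.mul_mk, hconj, mk_toWord]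
  have hw0 : w ≠ [] := by
    intro e
    apply hf
    rw [hf', e]
    have : (FreeGroup.mk ([] : List (L × Bool))) = 1 := rfl
    rw [this]
    group
  obtain ⟨a, t, hat⟩ : ∃ a t, w = a :: t := List.exists_cons_of_ne_nil hw0
  refine ⟨FreeGroup.mk u, FreeGroup.mk w, a, hf', fun y => ⟨FreeGroup.norm y + 1, fun n hn => ?_⟩⟩
  have h1 := toWord_pow_cyc hcyc n
  have hnorm : n ≤ FreeGroup.norm (FreeGroup.mk w ^ n) := by
    rw [FreeGroup.norm, h1, List.length_flatten, List.map_replicate, List.sum_replicate, smul_eq_mul]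
    have : 1 ≤ w.length := by
      rw [hat]; simp
    nlinarith
  have hn1 : 1 ≤ n := by omega
  constructor
  · rw [head_mul (by omega), h1, head_flatten hw0 hn1, hat]
    rfl
  · rw [head_mul (by rw [norm_inv_eq]; omega), head_inv_toWord, h1, last_flatten hw0 hn1]
    intro h
    rw [Option.map_eq_some_iff] at h
    obtain ⟨b, hb1, hb2⟩ := h
    have h3 := (isCyclicallyReduced_iff.1 hcyc).2 b hb1 a (by rw [hat]; simp)
    have h4 : b.1 = a.1 := by rw [← hb2]
    have h5 := h3 h4
    have h6 : (!b.2) = a.2 := by rw [← hb2]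
    exact absurd (h6.trans h5.symm) (by cases b.2 <;> simp)

end Pool.Agent.Zk63.L43.Words
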